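import Pool.Agent.W_b91de3_h49.LinInd
import Pool.Agent.W_MP_b91de3_nt.Places

set_option autoImplicit false

/-! # Indicial polynomials at algebraic points -/

noncomputable section

open Polynomial Finset N27ec9e13 IsDedekindDomain NumberField
open Pool.Agent.W_MP_b91de3_nt

namespace Pool.Agent.W_b91de3_h49

lemma not_dvd_den_of_mem {p : ℕ} [Fact p.Prime] {x : ℚ} (hx : x ∈ Rp p) : ¬ p ∣ x.den := by
  intro hd
  have h1 : (⟨x, hx⟩ : Rp p) * (x.den : Rp p) = (x.num : Rp p) := by
    apply Subtype.ext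
    push_cast
    exact Rat.mul_den_eq_num _
  have h2 := congrArg (redp p) h1
  rw [map_mul, map_intCast, map_natCast, (ZMod.natCast_eq_zero_iff _ _).mpr hd, mul_zero, eq_comm,
    ZMod.intCast_zmod_eq_zero_iff_dvd] at h2
  have h3 : p ∣ x.num.natAbs := Int.natCast_dvd.mp h2
  have h4 := Nat.dvd_gcd h3 hd
  rw [x.reduced] at h4
  exact (Fact.out : p.Prime).one_lt.ne' (Nat.dvd_one.mp h4)

variable {K : Type*} [Field K] [NumberField K]

lemma valuation_lt_one_of_red (v : HeightOneSpectrum (𝓞 K)) {x : Sv v} (h : red v x = 0) :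
    v.valuation K (x : K) < 1 := by
  obtain ⟨a, s, hs, hx⟩ := (mem_Sv v _).1 x.2
  have hs0 : (s : K) ≠ 0 := by
    intro h0
    apply hs
    have : s = 0 := by exact_mod_cast h0
    rw [this]; exact Ideal.zero_mem _
  have h1 : x * ⟨(s : K), coe_mem_Sv v s⟩ = ⟨(a : K), coe_mem_Sv v a⟩ := by
    apply Subtype.ext
    show (x : K) * (s : K) = (a : K)
    rw [hx]
    field_simp
  have h2 := congrArg (red v) h1
  rw [map_mul, h, zero_mul, red_coe] at h2
  have h3 : a ∈ v.asIdeal := (qm_eq_zero v a).1 h2.symm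
  have h4 : v.valuation K (a : K) < 1 := (v.valuation_lt_one_iff_mem a).2 h3
  have h5 : v.valuation K (s : K) = 1 := by
    refine le_antisymm (v.valuation_le_one s) ?_
    rw [← not_lt]
    intro h6
    exact hs ((v.valuation_lt_one_iff_mem s).1 h6)
  rw [hx, map_mul, map_inv₀, h5, inv_one, mul_one]
  exact h4

/-- the inclusion of the `p`-integral rationals in the local ring -/
def iot (v : HeightOneSpectrum (𝓞 K)) : Rp (pr v) →+* Sv v :=
  ((Rat.castHom K).comp (Rp (pr v)).subtype).codRestrict (Sv v) fun x =>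
    (rat_mem_Sv_iff v x.1).2 (not_dvd_den_of_mem x.2)

lemma red_iot (v : HeightOneSpectrum (𝓞 K)) :
    (red v).comp (iot v) = (ZMod.castHom (dvd_refl (pr v)) (kf v)).comp (redp (pr v)) := by
  ext x
  have hd := not_dvd_den_of_mem x.2
  have h1 : x * ((x : ℚ).den : Rp (pr v)) = ((x : ℚ).num : Rp (pr v)) := by
    apply Subtype.ext
    push_cast
    exact Rat.mul_den_eq_num _
  have hden : (((x : ℚ).den : ℕ) : kf v) ≠ 0 := by
    rw [Ne, CharP.cast_eq_zero_iff (kf v) (pr v)]; exact hd
  apply mul_right_cancel₀ hden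
  have h2 := congrArg ((red v).comp (iot v)) h1
  have h3 := congrArg ((ZMod.castHom (dvd_refl (pr v)) (kf v)).comp (redp (pr v))) h1
  rw [map_mul, map_natCast, map_intCast] at h2 h3
  rw [h2, h3]

/-- **Root of the indicial polynomials at algebraic points.** -/
theorem indicial_roots_alg (n : ℕ) (a : ℕ → ℚ[X]) (f : PowerSeries ℚ) (hf0 : f ≠ 0)
    (hL : ∑ i ∈ range (n + 1), (a i : PowerSeries ℚ) * (PowerSeries.derivative ℚ)^[i] f = 0)
    (ω : Nat.Primes → ℤ) (hω : omegaSuperlinear ω)
    (hint : omegaIntegral ω (PowerSeries.coeff · f)) (s : K) (d : ℤ)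
    (hd : ∀ i ≤ n, ∀ j, (taylor s ((a i).map (algebraMap ℚ K))).coeff j ≠ 0 → d ≤ (j : ℤ) - i) :
    ∀ᶠ v : HeightOneSpectrum (𝓞 K) in Filter.cofinite, ∃ k : ℕ,
      v.valuation K (ind n (fun i => taylor s ((a i).map (algebraMap ℚ K))) d k) < 1 := by
  classical
  obtain ⟨P1, hP1⟩ := exists_solution_mod n a f hf0 hL ω hω hint
  have hex : ∀ i, ∃ P0 : ℕ, ∀ p, P0 ≤ p → ∀ [Fact p.Prime], ∀ k, (a i).coeff k ∈ Rp p :=
    fun i => eventually_mem_Rp (a i)
  choose Q hQ using hex
  filter_upwards [eventually_pr_ge (K := K) (max P1 (∑ i ∈ range (n + 1), Q i)),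
    eventually_mem_Sv s] with v hv hsv
  have hp1 : P1 ≤ pr v := le_trans (le_max_left _ _) hv
  have hpQ : ∑ i ∈ range (n + 1), Q i ≤ pr v := le_trans (le_max_right _ _) hv
  have h1 : ∀ i, ∃ B : (Rp (pr v))[X], i ≤ n → B.map (Rp (pr v)).subtype = a i := by
    intro i
    by_cases hi : i ≤ n
    · have h2 : Q i ≤ ∑ i ∈ range (n + 1), Q i :=
        single_le_sum (f := Q) (fun _ _ => Nat.zero_le _) (mem_range.mpr (by omega))
      obtain ⟨B, hB⟩ := exists_lift (p := pr v) (a i) (hQ i (pr v) (by omega))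
      exact ⟨B, fun _ => hB⟩
    · exact ⟨0, fun h => absurd h hi⟩
  choose b hb using h1
  obtain ⟨G, hG0, hG⟩ := hP1 (pr v) hp1 b hb
  set s' : Sv v := ⟨s, hsv⟩ with hs'
  set φ := ZMod.castHom (dvd_refl (pr v)) (kf v) with hφ
  -- the operator over the local ring
  set c : ℕ → (Sv v)[X] := fun i => taylor s' ((b i).map (iot v)) with hc
  have hcK : ∀ i ≤ n, (c i).map (Sv v).subtype = taylor s ((a i).map (algebraMap ℚ K)) := by
    intro i hi
    rw [hc, Polynomial.map_taylor, Polynomial.map_map, ← hb i hi, Polynomial.map_map]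
    rfl
  have hcred : ∀ i, (c i).map (red v) =
      taylor (red v s') (((b i).map (redp (pr v))).map φ) := by
    intro i
    rw [hc, Polynomial.map_taylor, Polynomial.map_map, red_iot, Polynomial.map_map]
  set H := taylor (red v s') (G.map φ) with hH
  have hH0 : H ≠ 0 := by
    rw [hH, Ne, taylor_eq_zero, Polynomial.map_eq_zero_iff (ZMod.castHom_injective _)]
    exact hG0
  have hLH : Lop n (fun i => (c i).map (red v)) H = 0 := by
    have h1 : (fun i => (c i).map (red v)) =
        fun i => taylor (red v s') (((b i).map (redp (pr v))).map φ) := funext hcred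
    rw [h1, hH, Lop_taylor n (fun i => ((b i).map (redp (pr v))).map φ), ← Lop_map, hG,
      Polynomial.map_zero, map_zero]
  refine ⟨H.natTrailingDegree, ?_⟩
  have h1 := ind_mul n (fun i => (c i).map (red v)) d H.natTrailingDegree H ?_ hLH
  · have h2 := (mul_eq_zero.mp h1).resolve_right (trailingCoeff_nonzero_iff_nonzero.mpr hH0)
    rw [ind_map] at h2
    have h3 := valuation_lt_one_of_red v h2
    have h4 : ((ind n c d H.natTrailingDegree : Sv v) : K) =
        ind n (fun i => taylor s ((a i).map (algebraMap ℚ K))) d H.natTrailingDegree := by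
      have h5 := ind_map (Sv v).subtype n c d H.natTrailingDegree
      have h6 : ind n (fun i => (c i).map (Sv v).subtype) d H.natTrailingDegree =
          ind n (fun i => taylor s ((a i).map (algebraMap ℚ K))) d H.natTrailingDegree := by
        rw [ind, ind]
        refine sum_congr rfl fun i hi => ?_
        rw [mem_range] at hi
        rw [hcK i (by omega)]
      rw [← h6, h5]
      rfl
    rwa [h4] at h3
  · intro i hi j l hj hl hjl
    have h2 : (taylor s ((a i).map (algebraMap ℚ K))).coeff j ≠ 0 := by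
      intro h0
      apply hj
      rw [Polynomial.coeff_map]
      have h3 : (c i).coeff j = 0 := by
        apply Subtype.coe_injective
        rw [← hcK i hi, Polynomial.coeff_map] at h0
        exact h0
      rw [h3, map_zero]
    have h3 := hd i hi j h2
    have h4 := natTrailingDegree_le_of_ne_zero hl
    omega

end Pool.Agent.W_b91de3_h49
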