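import Pool.Agent.W_b91de3_h49.LinRed

set_option autoImplicit false

/-! # Indicial polynomials -/

noncomputable section

open Polynomial Finset N27ec9e13

namespace Pool.Agent.W_b91de3_h49

/-- The value at `k` of the indicial polynomial of weight `d` of the operator `∑ i ≤ n, a i D ^ i`:
the sum over `i ≤ n` of the coefficient of `X ^ (i + d)` in `a i` times
`k (k - 1) ... (k - i + 1)`. -/
def ind {R : Type*} [CommRing R] (n : ℕ) (a : ℕ → R[X]) (d : ℤ) (k : ℕ) : R :=
  ∑ i ∈ range (n + 1), (if 0 ≤ (i : ℤ) + d then (a i).coeff ((i : ℤ) + d).toNat else 0) *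
    (k.descFactorial i : R)

lemma ind_map {R S : Type*} [CommRing R] [CommRing S] (φ : R →+* S) (n : ℕ) (a : ℕ → R[X])
    (d : ℤ) (k : ℕ) : ind n (fun i => (a i).map φ) d k = φ (ind n a d k) := by
  rw [ind, ind, map_sum]
  refine sum_congr rfl fun i _ => ?_
  rw [map_mul, map_natCast]
  congr 1
  split_ifs
  · rw [Polynomial.coeff_map]
  · rw [map_zero]

lemma ind_mul {R : Type*} [CommRing R] (n : ℕ) (a : ℕ → R[X]) (d : ℤ) (k : ℕ) (G : R[X])
    (h : ∀ i ≤ n, ∀ j l, (a i).coeff j ≠ 0 → G.coeff l ≠ 0 → (j : ℤ) - i + l = d + k → l = k)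
    (hL : Lop n a G = 0) : ind n a d k * G.coeff k = 0 := by
  by_cases hkd : 0 ≤ (k : ℤ) + d
  · obtain ⟨m, hm⟩ := Int.eq_ofNat_of_zero_le hkd
    have h1 := congrArg (fun P => P.coeff m) hL
    simp only [Lop_apply, finsetSum_coeff, coeff_zero] at h1
    rw [← h1, ind, sum_mul]
    refine sum_congr rfl fun i hi => ?_
    rw [mem_range] at hi
    rw [Polynomial.coeff_mul]
    by_cases hc : 0 ≤ (i : ℤ) + d ∧ i ≤ k
    · rw [if_pos hc.1, sum_eq_single (((i : ℤ) + d).toNat, k - i)]
      · rw [coeff_iterate_derivative]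
        have e1 : k - i + i = k := by omega
        rw [e1, nsmul_eq_mul]
        ring
      · intro x hx hx'
        rw [HasAntidiagonal.mem_antidiagonal] at hx
        by_contra hne
        have h2 : (a i).coeff x.1 ≠ 0 := left_ne_zero_of_mul hne
        have h3 : G.coeff (x.2 + i) ≠ 0 := by
          intro h0
          apply right_ne_zero_of_mul hne
          rw [coeff_iterate_derivative, h0, smul_zero]
        have h4 := h i (by omega) x.1 (x.2 + i) h2 h3 (by push_cast; omega)
        apply hx'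
        apply Prod.ext
        · have : (x.1 : ℤ) = i + d := by omega
          show x.1 = ((i : ℤ) + d).toNat
          omega
        · show x.2 = k - i
          omega
      · intro h2
        exfalso
        apply h2
        rw [HasAntidiagonal.mem_antidiagonal]
        show ((i : ℤ) + d).toNat + (k - i) = m
        omega
    · have h2 : (if 0 ≤ (i : ℤ) + d then (a i).coeff ((i : ℤ) + d).toNat else 0) *
          (k.descFactorial i : R) = 0 := by
        by_cases h3 : 0 ≤ (i : ℤ) + d
        · have h4 : k < i := by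
            by_contra h5
            exact hc ⟨h3, by omega⟩
          rw [Nat.descFactorial_eq_zero_iff_lt.mpr h4, Nat.cast_zero, mul_zero]
        · rw [if_neg h3, zero_mul]
      rw [h2, zero_mul]
      symm
      refine sum_eq_zero fun x hx => ?_
      rw [HasAntidiagonal.mem_antidiagonal] at hx
      by_contra hne
      have h2 : (a i).coeff x.1 ≠ 0 := left_ne_zero_of_mul hne
      have h3 : G.coeff (x.2 + i) ≠ 0 := by
        intro h0
        apply right_ne_zero_of_mul hne
        rw [coeff_iterate_derivative, h0, smul_zero]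
      have h4 := h i (by omega) x.1 (x.2 + i) h2 h3 (by push_cast; omega)
      apply hc
      constructor <;> omega
  · have h1 : ind n a d k = 0 := by
      rw [ind]
      refine sum_eq_zero fun i _ => ?_
      by_cases h3 : 0 ≤ (i : ℤ) + d
      · have h4 : k < i := by omega
        rw [Nat.descFactorial_eq_zero_iff_lt.mpr h4, Nat.cast_zero, mul_zero]
      · rw [if_neg h3, zero_mul]
    rw [h1, zero_mul]

lemma Lop_taylor {R : Type*} [CommRing R] (n : ℕ) (a : ℕ → R[X]) (s : R) (G : R[X]) :
    Lop n (fun i => taylor s (a i)) (taylor s G) = taylor s (Lop n a G) := by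
  have hd : ∀ (i : ℕ) (g : R[X]), derivative^[i] (taylor s g) = taylor s (derivative^[i] g) := by
    intro i
    induction i with
    | zero => intro g; rfl
    | succ i ih =>
      intro g
      rw [Function.iterate_succ_apply', ih, Function.iterate_succ_apply', taylor_apply,
        taylor_apply, derivative_comp]
      simp
  rw [Lop_apply, Lop_apply, map_sum]
  refine sum_congr rfl fun i _ => ?_
  rw [hd, taylor_mul]

/-- **Root of the indicial polynomials.** -/
theorem indicial_roots (n : ℕ) (a : ℕ → ℚ[X]) (f : PowerSeries ℚ) (hf0 : f ≠ 0)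
    (hL : ∑ i ∈ range (n + 1), (a i : PowerSeries ℚ) * (PowerSeries.derivative ℚ)^[i] f = 0)
    (ω : Nat.Primes → ℤ) (hω : omegaSuperlinear ω)
    (hint : omegaIntegral ω (PowerSeries.coeff · f)) :
    (∀ d : ℤ, (∀ i ≤ n, ∀ j, (a i).coeff j ≠ 0 → (j : ℤ) - i ≤ d) →
      ∃ P0 : ℕ, ∀ p, P0 ≤ p → p.Prime → ∃ k : ℕ, (p : ℤ) ∣ (ind n a d k).num) ∧
    (∀ (s : ℚ) (d : ℤ), (∀ i ≤ n, ∀ j, (taylor s (a i)).coeff j ≠ 0 → d ≤ (j : ℤ) - i) →
      ∃ P0 : ℕ, ∀ p, P0 ≤ p → p.Prime → ∃ k : ℕ,
        (p : ℤ) ∣ (ind n (fun i => taylor s (a i)) d k).num) := by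
  classical
  obtain ⟨P1, hP1⟩ := exists_solution_mod n a f hf0 hL ω hω hint
  -- the coefficients are eventually integral
  have hex : ∀ i, ∃ P0 : ℕ, ∀ p, P0 ≤ p → ∀ [Fact p.Prime], ∀ k, (a i).coeff k ∈ Rp p :=
    fun i => eventually_mem_Rp (a i)
  choose Q hQ using hex
  have hlift : ∀ p, (∑ i ∈ range (n + 1), Q i) ≤ p → ∀ [Fact p.Prime], ∃ b : ℕ → (Rp p)[X],
      ∀ i ≤ n, (b i).map (Rp p).subtype = a i := by
    intro p hp _
    have h1 : ∀ i, ∃ B : (Rp p)[X], i ≤ n → B.map (Rp p).subtype = a i := by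
      intro i
      by_cases hi : i ≤ n
      · have h2 : Q i ≤ ∑ i ∈ range (n + 1), Q i :=
          single_le_sum (f := Q) (fun _ _ => Nat.zero_le _) (mem_range.mpr (by omega))
        obtain ⟨B, hB⟩ := exists_lift (p := p) (a i) (hQ i p (by omega))
        exact ⟨B, fun _ => hB⟩
      · exact ⟨0, fun h => absurd h hi⟩
    choose b hb using h1
    exact ⟨b, hb⟩
  have hcoeff0 : ∀ {p : ℕ} [Fact p.Prime] (B : (Rp p)[X]) (A : ℚ[X]),
      B.map (Rp p).subtype = A → ∀ j, (B.map (redp p)).coeff j ≠ 0 → A.coeff j ≠ 0 := by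
    intro p _ B A hBA j hj h0
    apply hj
    rw [Polynomial.coeff_map]
    have h1 : B.coeff j = 0 := by
      apply Subtype.coe_injective
      rw [← hBA, Polynomial.coeff_map] at h0
      exact h0
    rw [h1, map_zero]
  have hfin : ∀ {p : ℕ} [Fact p.Prime] (b : ℕ → (Rp p)[X]) (a : ℕ → ℚ[X]) (d : ℤ) (k : ℕ),
      (∀ i ≤ n, (b i).map (Rp p).subtype = a i) →
      ind n (fun i => (b i).map (redp p)) d k = 0 → (p : ℤ) ∣ (ind n a d k).num := by
    intro p _ b a d k hb h0
    rw [ind_map] at h0
    have h1 := dvd_num_of_redp h0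
    have h2 : ((ind n b d k : Rp p) : ℚ) = ind n a d k := by
      have h3 := ind_map (Rp p).subtype n b d k
      have h4 : ind n (fun i => (b i).map (Rp p).subtype) d k = ind n a d k := by
        rw [ind, ind]
        refine sum_congr rfl fun i hi => ?_
        rw [mem_range] at hi
        rw [hb i (by omega)]
      rw [← h4, h3]
      rfl
    rwa [h2] at h1
  refine ⟨fun d hd => ?_, fun s d hd => ?_⟩
  · refine ⟨max P1 (∑ i ∈ range (n + 1), Q i), fun p hp hpp => ?_⟩
    have : Fact p.Prime := ⟨hpp⟩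
    obtain ⟨b, hb⟩ := hlift p (le_trans (le_max_right _ _) hp)
    obtain ⟨G, hG0, hG⟩ := hP1 p (le_trans (le_max_left _ _) hp) b hb
    refine ⟨G.natDegree, hfin b a d G.natDegree hb ?_⟩
    have h1 := ind_mul n (fun i => (b i).map (redp p)) d G.natDegree G ?_ hG
    · exact (mul_eq_zero.mp h1).resolve_right (leadingCoeff_ne_zero.mpr hG0)
    · intro i hi j l hj hl hjl
      have h2 := hd i hi j (hcoeff0 (b i) (a i) (hb i hi) j hj)
      have h3 := le_natDegree_of_ne_zero hl
      omega
  · refine ⟨max P1 (max (∑ i ∈ range (n + 1), Q i) (s.den + 1)), fun p hp hpp => ?_⟩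
    have : Fact p.Prime := ⟨hpp⟩
    obtain ⟨b, hb⟩ := hlift p (le_trans (le_trans (le_max_left _ _) (le_max_right _ _)) hp)
    obtain ⟨G, hG0, hG⟩ := hP1 p (le_trans (le_max_left _ _) hp) b hb
    have hsp : s.den + 1 ≤ p :=
      le_trans (le_trans (le_max_right _ _) (le_max_right _ _)) hp
    have hs : s ∈ Rp p := mem_Rp (not_dvd_den_of_lt (by omega))
    set s' : Rp p := ⟨s, hs⟩ with hs'
    have hb' : ∀ i ≤ n, (taylor s' (b i)).map (Rp p).subtype = taylor s (a i) := by
      intro i hi
      rw [Polynomial.map_taylor, hb i hi]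
      rfl
    set H := taylor (redp p s') G with hH
    have hH0 : H ≠ 0 := by
      rw [hH, Ne, taylor_eq_zero]
      exact hG0
    have hLH : Lop n (fun i => (taylor s' (b i)).map (redp p)) H = 0 := by
      have h1 : (fun i => (taylor s' (b i)).map (redp p)) =
          fun i => taylor (redp p s') ((b i).map (redp p)) := by
        funext i
        rw [Polynomial.map_taylor]
      rw [h1, hH, Lop_taylor n (fun i => (b i).map (redp p)), hG, map_zero]
    refine ⟨H.natTrailingDegree, hfin (fun i => taylor s' (b i)) (fun i => taylor s (a i)) d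
      H.natTrailingDegree hb' ?_⟩
    have h1 := ind_mul n (fun i => (taylor s' (b i)).map (redp p)) d H.natTrailingDegree H ?_ hLH
    · exact (mul_eq_zero.mp h1).resolve_right (trailingCoeff_nonzero_iff_nonzero.mpr hH0)
    · intro i hi j l hj hl hjl
      have h2 := hd i hi j (hcoeff0 (taylor s' (b i)) (taylor s (a i)) (hb' i hi) j hj)
      have h3 := natTrailingDegree_le_of_ne_zero hl
      omega

end Pool.Agent.W_b91de3_h49
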