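import Pool.Agent.W_b91de3_h49.Euler
import Pool.Agent.W_b91de3_h49.LinInd

set_option autoImplicit false

/-! # The equation `f^(n) = r f` with at most one finite pole -/

noncomputable section

open Polynomial Finset N27ec9e13 NumberField
open Pool.Agent.W_MP_b91de3_nt

namespace Pool.Agent.W_b91de3_h49

/-- the coefficients of `A D ^ n + B` -/
def two (n : ℕ) (A B : ℚ[X]) (i : ℕ) : ℚ[X] := if i = n then A else if i = 0 then B else 0

lemma two_n (n : ℕ) (A B : ℚ[X]) : two n A B n = A := by simp [two]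

lemma two_zero {n : ℕ} (hn : 1 ≤ n) (A B : ℚ[X]) : two n A B 0 = B := by
  rw [two, if_neg (by omega), if_pos rfl]

lemma two_other {n i : ℕ} (A B : ℚ[X]) (h1 : i ≠ n) (h2 : i ≠ 0) : two n A B i = 0 := by
  rw [two, if_neg h1, if_neg h2]

lemma sum_two {M : Type*} [AddCommMonoid M] {n : ℕ} (hn : 1 ≤ n) (g : ℕ → M)
    (hg : ∀ i, i ≠ n → i ≠ 0 → g i = 0) : ∑ i ∈ range (n + 1), g i = g 0 + g n := by
  rw [← sum_subset (s₁ := {0, n})]
  · rw [sum_pair (by omega)]
  · intro i hi
    rw [mem_insert, mem_singleton] at hi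
    rw [mem_range]
    omega
  · intro i _ hi
    rw [mem_insert, mem_singleton, not_or] at hi
    exact hg i hi.2 hi.1

lemma ind_two {n : ℕ} (hn : 1 ≤ n) (A B : ℚ[X]) (d : ℤ) (k : ℕ) :
    ind n (two n A B) d k = (if 0 ≤ d then B.coeff d.toNat else 0) +
      (if 0 ≤ (n : ℤ) + d then A.coeff ((n : ℤ) + d).toNat else 0) * (k.descFactorial n : ℚ) := by
  rw [ind, sum_two hn]
  · rw [two_zero hn, two_n]
    simp
  · intro i h1 h2
    rw [two_other A B h1 h2]
    simp

lemma not_all_dvd {x : ℚ} (hx : x ≠ 0) {P0 : ℕ}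
    (h : ∀ p, P0 ≤ p → p.Prime → (p : ℤ) ∣ x.num) : False := by
  obtain ⟨p, hp1, hp2⟩ := Nat.exists_infinite_primes (max P0 (x.num.natAbs + 1))
  have h1 := h p (le_trans (le_max_left _ _) hp1) hp2
  have h2 : p ∣ x.num.natAbs := Int.natCast_dvd.mp h1
  have h3 : x.num.natAbs ≠ 0 := by
    rw [Int.natAbs_ne_zero]
    exact Rat.num_ne_zero.mpr hx
  have h4 := Nat.le_of_dvd (Nat.pos_of_ne_zero h3) h2
  have h5 : x.num.natAbs + 1 ≤ p := le_trans (le_max_right _ _) hp1
  omega

lemma sum_two_eq {n : ℕ} (hn : 1 ≤ n) (A B : ℚ[X]) (f : PowerSeries ℚ)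
    (h : (A : PowerSeries ℚ) * (PowerSeries.derivative ℚ)^[n] f = (B : PowerSeries ℚ) * f) :
    ∑ i ∈ range (n + 1), ((two n A (-B) i : ℚ[X]) : PowerSeries ℚ) *
      (PowerSeries.derivative ℚ)^[i] f = 0 := by
  rw [sum_two hn]
  · rw [two_zero hn, two_n, h]
    simp
  · intro i h1 h2
    rw [two_other A _ h1 h2]
    simp

/-- The equation `A f^(n) = B f` with `deg B > deg A - n`. -/
lemma no_solution_infinity {n : ℕ} (hn : 1 ≤ n) (A B : ℚ[X]) (hB : B ≠ 0)
    (hdeg : A.natDegree < B.natDegree + n) (f : PowerSeries ℚ)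
    (h : (A : PowerSeries ℚ) * (PowerSeries.derivative ℚ)^[n] f = (B : PowerSeries ℚ) * f)
    (ω : Nat.Primes → ℤ) (hω : omegaSuperlinear ω)
    (hint : omegaIntegral ω (PowerSeries.coeff · f)) : f = 0 := by
  by_contra hf0
  obtain ⟨P0, hP0⟩ := (indicial_roots n (two n A (-B)) f hf0 (sum_two_eq hn A B f h) ω hω hint).1
    (B.natDegree : ℤ) (by
      intro i hi j hj
      by_cases h1 : i = n
      · rw [h1, two_n] at hj
        have := le_natDegree_of_ne_zero hj
        omega
      · by_cases h2 : i = 0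
        · rw [h2, two_zero hn, coeff_neg, neg_ne_zero] at hj
          have := le_natDegree_of_ne_zero hj
          omega
        · rw [two_other A _ h1 h2, coeff_zero] at hj
          exact absurd rfl hj)
  refine not_all_dvd (x := -B.leadingCoeff) (by simpa using hB) (P0 := P0) fun p hp hpp => ?_
  obtain ⟨k, hk⟩ := hP0 p hp hpp
  rw [ind_two hn, if_pos (by omega), if_pos (by omega)] at hk
  have e1 : ((B.natDegree : ℤ)).toNat = B.natDegree := by omega
  have e2 : ((n : ℤ) + (B.natDegree : ℤ)).toNat = n + B.natDegree := by omega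
  have e3 : A.coeff (n + B.natDegree) = 0 := coeff_eq_zero_of_natDegree_lt (by omega)
  rw [e1, e2, e3, zero_mul, add_zero, coeff_neg] at hk
  exact hk

/-- The equation `(X - s)^m f^(n) = B f` with `m > n` and `B(s) ≠ 0`. -/
lemma no_solution_finite {n m : ℕ} (hn : 1 ≤ n) (hm : n < m) (s : ℚ) (B : ℚ[X])
    (hB : B.eval s ≠ 0) (f : PowerSeries ℚ)
    (h : (((X - C s) ^ m : ℚ[X]) : PowerSeries ℚ) * (PowerSeries.derivative ℚ)^[n] f =
      (B : PowerSeries ℚ) * f)
    (ω : Nat.Primes → ℤ) (hω : omegaSuperlinear ω)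
    (hint : omegaIntegral ω (PowerSeries.coeff · f)) : f = 0 := by
  by_contra hf0
  have htay : taylor s ((X - C s) ^ m) = X ^ m := by
    rw [taylor_apply, pow_comp, sub_comp, X_comp, C_comp, add_sub_cancel_right]
  have htwo : (fun i => taylor s (two n ((X - C s) ^ m) (-B) i)) =
      two n (X ^ m) (-(taylor s B)) := by
    funext i
    by_cases h1 : i = n
    · rw [h1, two_n, two_n, htay]
    · by_cases h2 : i = 0
      · rw [h2, two_zero hn, two_zero hn, map_neg]
      · rw [two_other _ _ h1 h2, two_other _ _ h1 h2, map_zero]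
  obtain ⟨P0, hP0⟩ := (indicial_roots n (two n ((X - C s) ^ m) (-B)) f hf0
    (sum_two_eq hn _ B f h) ω hω hint).2 s 0 (by
      intro i hi j hj
      have h0 : taylor s (two n ((X - C s) ^ m) (-B) i) = two n (X ^ m) (-(taylor s B)) i :=
        congrFun htwo i
      rw [h0] at hj
      by_cases h1 : i = n
      · rw [h1, two_n, coeff_X_pow] at hj
        split_ifs at hj with h2
        · omega
        · exact absurd rfl hj
      · by_cases h2 : i = 0
        · omega
        · rw [two_other _ _ h1 h2, coeff_zero] at hj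
          exact absurd rfl hj)
  refine not_all_dvd (x := -B.eval s) (by simpa using hB) (P0 := P0) fun p hp hpp => ?_
  obtain ⟨k, hk⟩ := hP0 p hp hpp
  rw [htwo, ind_two hn, if_pos le_rfl, if_pos (by omega)] at hk
  have e1 : (0 : ℤ).toNat = 0 := rfl
  have e2 : ((n : ℤ) + 0).toNat = n := by omega
  rw [e1, e2, coeff_X_pow, if_neg (by omega), zero_mul, add_zero, coeff_neg, taylor_coeff_zero]
    at hk
  exact hk

/-- Algebraic series have bounded denominators. -/
lemma bounded_of_alg (K : Type*) [Field K] [NumberField K] (f : PowerSeries ℚ)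
    (h : IsAlgebraic (Polynomial K) (PowerSeries.map (algebraMap ℚ K) f)) :
    ∃ N : ℕ, IsCoeffIntegralAdjointInvNat f N :=
  bounded_of_evr (K := K) f (eisenstein _ h)

lemma map_iterate (K : Type*) [Field K] [NumberField K] (n : ℕ) (f : PowerSeries ℚ) :
    PowerSeries.map (algebraMap ℚ K) ((PowerSeries.derivative ℚ)^[n] f) =
      (PowerSeries.derivative K)^[n] (PowerSeries.map (algebraMap ℚ K) f) := by
  induction n with
  | zero => rfl
  | succ n ih => rw [Function.iterate_succ_apply', Function.iterate_succ_apply', map_derivative, ih]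

/-- Euler's equation `(X - s)^n f^(n) = c f` over a field which contains the exponents. -/
lemma bounded_euler_aux (K : Type*) [Field K] [NumberField K] {n : ℕ} (hn : 1 ≤ n) {s : ℚ}
    (hs : s ≠ 0) (c : ℚ)
    (hsplit' : ∀ φ : ℚ →+* K, ((descPochhammer ℚ n - C c).map φ).Splits)
    (f : PowerSeries ℚ)
    (h : (((X - C s) ^ n : ℚ[X]) : PowerSeries ℚ) * (PowerSeries.derivative ℚ)^[n] f =
      ((C c : ℚ[X]) : PowerSeries ℚ) * f)
    (ω : Nat.Primes → ℤ) (hω : omegaSuperlinear ω)
    (hint : omegaIntegral ω (PowerSeries.coeff · f)) :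
    ∃ N : ℕ, IsCoeffIntegralAdjointInvNat f N := by
  apply bounded_of_alg K f
  have hsplit : (descPochhammer K n - C (c : K)).Splits := by
    have h1 := hsplit' (algebraMap ℚ K)
    rw [Polynomial.map_sub, descPochhammer_map, Polynomial.map_C] at h1
    simpa using h1
  have hdeg : (descPochhammer K n - C (c : K)).natDegree = n := by
    rw [natDegree_sub_C, descPochhammer_natDegree]
  refine euler_algebraic (s := algebraMap ℚ K s) (by simpa using hs) n _ hdeg ?_ hsplit _
    (map_mem_sli f ω hω hint) ?_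
  · intro h0
    rw [h0, natDegree_zero] at hdeg
    omega
  · rw [map_sub, LinearMap.sub_apply, ← pow_mul_iterate, aeval_C, Module.algebraMap_end_apply,
      PowerSeries.smul_eq_C_mul, sub_eq_zero]
    have h2 := congrArg (PowerSeries.map (algebraMap ℚ K)) h
    rw [map_mul, map_mul, map_iterate] at h2
    have h3 : PowerSeries.map (algebraMap ℚ K) (((X - C s) ^ n : ℚ[X]) : PowerSeries ℚ) =
        (PowerSeries.X - PowerSeries.C (algebraMap ℚ K s)) ^ n := by
      simp
    have h4 : PowerSeries.map (algebraMap ℚ K) ((C c : ℚ[X]) : PowerSeries ℚ) =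
        PowerSeries.C (c : K) := by
      simp
    rw [h3, h4] at h2
    exact h2

/-- Euler's equation `(X - s)^n f^(n) = c f`. -/
lemma bounded_euler {n : ℕ} (hn : 1 ≤ n) {s : ℚ} (hs : s ≠ 0) (c : ℚ) (f : PowerSeries ℚ)
    (h : (((X - C s) ^ n : ℚ[X]) : PowerSeries ℚ) * (PowerSeries.derivative ℚ)^[n] f =
      ((C c : ℚ[X]) : PowerSeries ℚ) * f)
    (ω : Nat.Primes → ℤ) (hω : omegaSuperlinear ω)
    (hint : omegaIntegral ω (PowerSeries.coeff · f)) :
    ∃ N : ℕ, IsCoeffIntegralAdjointInvNat f N := by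
  have : NumberField (descPochhammer ℚ n - C c).SplittingField :=
    NumberField.of_module_finite ℚ _
  refine bounded_euler_aux (descPochhammer ℚ n - C c).SplittingField hn hs c (fun φ => ?_) f h
    ω hω hint
  have h1 := SplittingField.splits (descPochhammer ℚ n - C c)
  rw [Subsingleton.elim φ (algebraMap ℚ (descPochhammer ℚ n - C c).SplittingField)]
  exact h1

/-- **Equations `f^(n) = r f` with at most one finite pole.** -/
theorem one_pole {n m : ℕ} (hn : 1 ≤ n) {s : ℚ} (hs : s ≠ 0) (B : ℚ[X]) (f : PowerSeries ℚ)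
    (h : (((X - C s) ^ m : ℚ[X]) : PowerSeries ℚ) * (PowerSeries.derivative ℚ)^[n] f =
      (B : PowerSeries ℚ) * f)
    (ω : Nat.Primes → ℤ) (hω : omegaSuperlinear ω)
    (hint : omegaIntegral ω (PowerSeries.coeff · f)) :
    ∃ N : ℕ, IsCoeffIntegralAdjointInvNat f N := by
  have hzero : f = 0 → ∃ N : ℕ, IsCoeffIntegralAdjointInvNat f N := by
    rintro rfl
    apply bounded_of_alg ℚ
    rw [map_zero]
    exact isAlgebraic_zero
  have hXs : ((X - C s : ℚ[X]) : PowerSeries ℚ) ≠ 0 := by
    rw [Ne, Polynomial.coe_eq_zero_iff]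
    exact X_sub_C_ne_zero s
  by_cases hB : B = 0
  · refine bounded_euler hn hs 0 f ?_ ω hω hint
    rw [hB, Polynomial.coe_zero, zero_mul, Polynomial.coe_pow] at h
    have h1 := (mul_eq_zero.1 h).resolve_left (pow_ne_zero _ hXs)
    rw [h1]
    simp
  -- remove the common factors
  obtain ⟨B1, hB1, hB1s⟩ := exists_eq_pow_rootMultiplicity_mul_and_not_dvd B hB s
  set e := B.rootMultiplicity s with he
  have hB1e : B1.eval s ≠ 0 := by
    intro h0
    exact hB1s (dvd_iff_isRoot.2 h0)
  have hB10 : B1 ≠ 0 := by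
    rintro rfl
    simp at hB1e
  rcases Nat.lt_or_ge e m with hem | hem
  · -- pole of order `m - e`
    have h1 : (((X - C s) ^ (m - e) : ℚ[X]) : PowerSeries ℚ) * (PowerSeries.derivative ℚ)^[n] f =
        (B1 : PowerSeries ℚ) * f := by
      apply mul_left_cancel₀ (pow_ne_zero e hXs)
      have e1 : ((X - C s : ℚ[X]) : PowerSeries ℚ) ^ e * (((X - C s) ^ (m - e) : ℚ[X]) :
          PowerSeries ℚ) = (((X - C s) ^ m : ℚ[X]) : PowerSeries ℚ) := by
        rw [← Polynomial.coe_pow, ← Polynomial.coe_mul, ← pow_add]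
        congr 2
        omega
      rw [← mul_assoc, e1, h, ← mul_assoc, ← Polynomial.coe_pow, ← Polynomial.coe_mul, ← hB1]
    rcases Nat.lt_or_ge (m - e) (B1.natDegree + n) with h2 | h2
    · exact hzero (no_solution_infinity hn _ B1 hB10 (by
        rw [natDegree_pow, natDegree_X_sub_C, mul_one]
        exact h2) f h1 ω hω hint)
    rcases Nat.lt_or_ge n (m - e) with h3 | h3
    · exact hzero (no_solution_finite hn h3 s B1 hB1e f h1 ω hω hint)
    · have h4 : m - e = n := by omega
      have h5 : B1.natDegree = 0 := by omega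
      obtain ⟨c, rfl⟩ := natDegree_eq_zero.1 h5
      rw [h4] at h1
      exact bounded_euler hn hs c f h1 ω hω hint
  · -- no pole
    have h1 : (1 : PowerSeries ℚ) * (PowerSeries.derivative ℚ)^[n] f =
        (((X - C s) ^ (e - m) * B1 : ℚ[X]) : PowerSeries ℚ) * f := by
      apply mul_left_cancel₀ (pow_ne_zero m hXs)
      have e1 : ((X - C s : ℚ[X]) : PowerSeries ℚ) ^ m *
          (((X - C s) ^ (e - m) * B1 : ℚ[X]) : PowerSeries ℚ) = (B : PowerSeries ℚ) := by
        rw [← Polynomial.coe_pow, ← Polynomial.coe_mul, ← mul_assoc, ← pow_add, hB1]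
        congr 3
        omega
      rw [one_mul, ← mul_assoc, e1, ← h, Polynomial.coe_pow]
    refine hzero (no_solution_infinity hn 1 ((X - C s) ^ (e - m) * B1)
      (mul_ne_zero (pow_ne_zero _ (X_sub_C_ne_zero s)) hB10) (by rw [natDegree_one]; omega) f ?_
      ω hω hint)
    rw [Polynomial.coe_one]
    exact h1

end Pool.Agent.W_b91de3_h49
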