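import Pool.Agent.W_b91de3_h49.Final
import Pool.Agent.W_MP_b91de3_nt.Main

set_option autoImplicit false

/-! # Solutions of algebraic ODEs which are meromorphic in the plane of finite order -/

noncomputable section

open Finset Filter N27ec9e13

namespace Pool.Agent.W_b91de3_h49

lemma gam_shift {A C σ : ℝ} (hσ : 0 ≤ σ) (r k : ℕ) {x : ℝ}
    (hx : x ≤ A * C ^ (k + r) / ((k + r).factorial : ℝ) ^ σ) :
    x ≤ ((|A| + 1) * (|C| + 1) ^ r) * gam (|C| + 1) σ k := by
  have hf : (0 : ℝ) < k.factorial := by exact_mod_cast Nat.factorial_pos k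
  have hf' : (0 : ℝ) < (k + r).factorial := by exact_mod_cast Nat.factorial_pos _
  have h1 : A * C ^ (k + r) ≤ (|A| + 1) * (|C| + 1) ^ (k + r) := by
    calc A * C ^ (k + r) ≤ |A * C ^ (k + r)| := le_abs_self _
      _ = |A| * |C| ^ (k + r) := by rw [abs_mul, abs_pow]
      _ ≤ _ := by gcongr <;> linarith
  have h2 : (k.factorial : ℝ) ^ σ ≤ ((k + r).factorial : ℝ) ^ σ := by
    refine Real.rpow_le_rpow hf.le ?_ hσ
    exact_mod_cast Nat.factorial_le (Nat.le_add_right k r)
  calc x ≤ A * C ^ (k + r) / ((k + r).factorial : ℝ) ^ σ := hx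
    _ ≤ (|A| + 1) * (|C| + 1) ^ (k + r) / (k.factorial : ℝ) ^ σ := by
        gcongr
    _ = _ := by
        rw [gam, pow_add]
        ring

/-- A solution of an algebraic ODE which is meromorphic in the plane of finite order `ρ` and finite
type and `ω`-integral with `ω(p) / p ^ ρ → ∞` is rational. -/
theorem rational_of_meromorphic {n : ℕ} {f : PowerSeries ℚ} {g : MvRatFunc (Fin (n + 1)) ℚ}
    (hf : IsSolutionOfAlgebraicODE n f g) {ρ : ℝ} (hρ : 0 < ρ)
    {ω : Nat.Primes → ℤ} (hω : Tendsto (fun p : Nat.Primes => (ω p : ℝ) / (p : ℝ) ^ ρ)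
      (comap (fun p : Nat.Primes => (p : ℕ)) atTop) atTop)
    (hint : omegaIntegral ω (PowerSeries.coeff · f)) (h1 h2 : PowerSeries ℂ) (h20 : h2 ≠ 0)
    (hq : PowerSeries.map (algebraMap ℚ ℂ) f * h2 = h1) (A C : ℝ)
    (hb1 : ∀ k, ‖PowerSeries.coeff k h1‖ ≤ A * C ^ k / (k.factorial : ℝ) ^ (1 / ρ))
    (hb2 : ∀ k, ‖PowerSeries.coeff k h2‖ ≤ A * C ^ k / (k.factorial : ℝ) ^ (1 / ρ)) :
    ∃ u v : Polynomial ℚ, v ≠ 0 ∧ (v : PowerSeries ℚ) * f = (u : PowerSeries ℚ) := by
  classical
  obtain ⟨N, hN, hden⟩ := ode_denominators hf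
  have hex : ∃ r, PowerSeries.coeff r h2 ≠ 0 := by
    by_contra hall
    push Not at hall
    exact h20 (PowerSeries.ext fun k => by rw [hall k, map_zero])
  set r := Nat.find hex with hr
  have hr1 : PowerSeries.coeff r h2 ≠ 0 := Nat.find_spec hex
  have hr2 : ∀ i < r, PowerSeries.coeff i h2 = 0 := fun i hi => by
    have := Nat.find_min hex hi
    rwa [not_not] at this
  have hσ : 0 ≤ 1 / ρ := by positivity
  set b : ℕ → ℂ := fun k => PowerSeries.coeff (k + r) h2 with hb
  have hb0 : b 0 ≠ 0 := by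
    rw [hb]
    simpa using hr1
  have hA : 0 < (|A| + 1) * (|C| + 1) ^ r := by positivity
  have hC : 0 < |C| + 1 := by positivity
  have hCC : ∀ k, CC (fun k => ((PowerSeries.coeff k f : ℚ) : ℂ)) b k =
      PowerSeries.coeff (k + r) h1 := by
    intro k
    rw [← hq, PowerSeries.coeff_mul, Finset.Nat.sum_antidiagonal_eq_sum_range_succ_mk, CC]
    have hsub : range (k + 1) ⊆ range (k + r + 1) := by
      intro i hi
      simp only [mem_range] at hi ⊢
      omega
    rw [← sum_subset hsub]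
    · refine sum_congr rfl fun i hi => ?_
      rw [mem_range] at hi
      have e1 : k + r - i = k - i + r := by omega
      simp only [hb, PowerSeries.coeff_map, e1]
      rw [mul_comm]
      rfl
    · intro i hi hi'
      rw [mem_range] at hi hi'
      rw [hr2 (k + r - i) (by omega), mul_zero]
  obtain ⟨m0, hm0⟩ := hankel_eventually_zero (fun k => PowerSeries.coeff k f) hN hden hρ hω hint b
    hb0 hA hC (fun k => gam_shift hσ r k (hb2 (k + r)))
    (fun k => by
      rw [hCC k]
      exact gam_shift hσ r k (hb1 (k + r)))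
  obtain ⟨u, v, hv, huv⟩ := rational_of_hankel (fun k => PowerSeries.coeff k f) m0 hm0
  refine ⟨u, v, hv, ?_⟩
  have e1 : PowerSeries.mk (fun k => PowerSeries.coeff k f) = f := by
    ext k
    rw [PowerSeries.coeff_mk]
  rw [← huv, e1]

/-- rational power series have bounded denominators -/
theorem bounded_of_rational {f : PowerSeries ℚ} {u v : Polynomial ℚ} (hv : v ≠ 0)
    (huv : (v : PowerSeries ℚ) * f = (u : PowerSeries ℚ)) :
    ∃ N : ℕ, IsCoeffIntegralAdjointInvNat f N := by
  apply W_MP_b91de3_nt.bounded_of_evr (K := ℚ)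
  apply W_MP_b91de3_nt.eisenstein
  have e1 : ∀ φ : ℚ →+* ℚ, PowerSeries.map φ f = f := by
    intro φ
    ext k
    rw [PowerSeries.coeff_map, Subsingleton.elim φ (RingHom.id ℚ), RingHom.id_apply]
  rw [e1]
  refine ⟨Polynomial.C v * Polynomial.X - Polynomial.C u, ?_, ?_⟩
  · intro h0
    have h1 := congrArg (fun P => Polynomial.coeff P 1) h0
    simp at h1
    exact hv h1
  · rw [map_sub, map_mul, Polynomial.aeval_C, Polynomial.aeval_C, Polynomial.aeval_X]
    have h1 : (algebraMap (Polynomial ℚ) (PowerSeries ℚ)) v = (v : PowerSeries ℚ) := rfl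
    have h2 : (algebraMap (Polynomial ℚ) (PowerSeries ℚ)) u = (u : PowerSeries ℚ) := rfl
    rw [h1, h2, huv, sub_self]

end Pool.Agent.W_b91de3_h49
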