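import Pool.Agent.W_b91de3_h49.Kron

set_option autoImplicit false

/-! # The archimedean bound for Hankel determinants of a quotient of entire functions. -/

noncomputable section

open Finset

namespace Pool.Agent.W_b91de3_h49

variable {F : Type*} [NormedField F]

/-- `∑ l ≤ j, b (j - l) a (k + l)` -/
def SS (a b : ℕ → F) (j k : ℕ) : F := ∑ l ∈ range (j + 1), b (j - l) * a (k + l)

/-- `∑ k ≤ i, ∑ l ≤ j, b (i - k) b (j - l) a (k + l)` -/
def GG (a b : ℕ → F) (i j : ℕ) : F := ∑ k ∈ range (i + 1), b (i - k) * SS a b j k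

lemma SS_succ (a b : ℕ → F) (j k : ℕ) : SS a b (j + 1) k = SS a b j (k + 1) + b (j + 1) * a k := by
  rw [SS, sum_range_succ', SS]
  congr 1
  refine sum_congr rfl fun l _ => ?_
  have e1 : j + 1 - (l + 1) = j - l := by omega
  have e2 : k + (l + 1) = k + 1 + l := by omega
  rw [e1, e2]

/-- the convolution -/
def CC (a b : ℕ → F) (i : ℕ) : F := ∑ k ∈ range (i + 1), b (i - k) * a k

lemma GG_zero (a b : ℕ → F) (i : ℕ) : GG a b i 0 = b 0 * CC a b i := by
  rw [GG, CC, mul_sum]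
  refine sum_congr rfl fun k _ => ?_
  rw [SS]
  simp
  ring

lemma GG_succ (a b : ℕ → F) (i j : ℕ) :
    GG a b i (j + 1) = GG a b (i + 1) j + (CC a b i * b (j + 1) - CC a b j * b (i + 1)) := by
  have h1 : GG a b i (j + 1) =
      ∑ k ∈ range (i + 1), b (i - k) * SS a b j (k + 1) + CC a b i * b (j + 1) := by
    rw [GG, CC, sum_mul, ← sum_add_distrib]
    refine sum_congr rfl fun k _ => ?_
    rw [SS_succ]
    ring
  have h2 : GG a b (i + 1) j =
      ∑ k ∈ range (i + 1), b (i - k) * SS a b j (k + 1) + CC a b j * b (i + 1) := by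
    rw [GG, sum_range_succ']
    congr 1
    · refine sum_congr rfl fun k _ => ?_
      have e1 : i + 1 - (k + 1) = i - k := by omega
      rw [e1]
    · rw [SS, CC, mul_comm]
      simp
  rw [h1, h2]
  ring

lemma GG_bound (a b : ℕ → F) (E : ℕ → ℝ) (hE : ∀ s t, ‖CC a b s‖ * ‖b t‖ ≤ E (s + t)) (i j : ℕ) :
    ‖GG a b i j‖ ≤ (2 * j + 1) * E (i + j) := by
  induction j generalizing i with
  | zero =>
    rw [GG_zero, norm_mul, mul_comm]
    simpa using hE i 0
  | succ j ih =>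
    rw [GG_succ]
    have h1 := ih (i + 1)
    have h2 := hE i (j + 1)
    have h3 := hE j (i + 1)
    have e1 : i + 1 + j = i + (j + 1) := by omega
    have e2 : j + (i + 1) = i + (j + 1) := by omega
    rw [e1] at h1
    rw [e2] at h3
    calc ‖GG a b (i + 1) j + (CC a b i * b (j + 1) - CC a b j * b (i + 1))‖
        ≤ ‖GG a b (i + 1) j‖ + (‖CC a b i * b (j + 1)‖ + ‖CC a b j * b (i + 1)‖) :=
          (norm_add_le _ _).trans (by gcongr; exact norm_sub_le _ _)
      _ = ‖GG a b (i + 1) j‖ + (‖CC a b i‖ * ‖b (j + 1)‖ + ‖CC a b j‖ * ‖b (i + 1)‖) := by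
          rw [norm_mul, norm_mul]
      _ ≤ (2 * j + 1) * E (i + (j + 1)) + (E (i + (j + 1)) + E (i + (j + 1))) := by
          gcongr
      _ = (2 * ((j + 1 : ℕ) : ℝ) + 1) * E (i + (j + 1)) := by
          push_cast
          ring

/-- The lower triangular Toeplitz matrix. -/
def toep (b : ℕ → F) (m : ℕ) : Matrix (Fin m) (Fin m) F :=
  Matrix.of fun i k => if (k : ℕ) ≤ i then b ((i : ℕ) - k) else 0

lemma det_toep (b : ℕ → F) (m : ℕ) : (toep b m).det = b 0 ^ m := by
  rw [Matrix.det_of_isLowerTriangular]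
  · simp [toep]
  · intro i k hik
    rw [toep, Matrix.of_apply, if_neg]
    simpa using hik

lemma sum_toep (b : ℕ → F) (m : ℕ) (i : Fin m) (g : ℕ → F) :
    ∑ k : Fin m, toep b m i k * g k = ∑ k ∈ range ((i : ℕ) + 1), b ((i : ℕ) - k) * g k := by
  have h1 : ∑ k : Fin m, toep b m i k * g k =
      ∑ k ∈ range m, (if k ≤ (i : ℕ) then b ((i : ℕ) - k) else 0) * g k := by
    rw [Finset.sum_range]
    rfl
  rw [h1]
  have h2 : range ((i : ℕ) + 1) ⊆ range m := by
    intro k hk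
    have := i.2
    simp only [mem_range] at hk ⊢
    omega
  rw [← sum_subset h2]
  · refine sum_congr rfl fun k hk => ?_
    rw [mem_range] at hk
    rw [if_pos (by omega)]
  · intro k _ hk
    rw [mem_range] at hk
    rw [if_neg (by omega), zero_mul]

lemma toep_hank (a b : ℕ → F) (m : ℕ) :
    toep b m * hank a m * (toep b m).transpose = Matrix.of fun i j : Fin m => GG a b i j := by
  ext i j
  rw [Matrix.mul_assoc, Matrix.mul_apply, Matrix.of_apply, GG]
  rw [← sum_toep b m i (fun k => SS a b j k)]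
  refine sum_congr rfl fun k _ => ?_
  congr 1
  rw [Matrix.mul_apply, SS, ← sum_toep b m j (fun l => a (k + l))]
  refine sum_congr rfl fun l _ => ?_
  rw [Matrix.transpose_apply, mul_comm]
  rfl

lemma norm_det_le {m : ℕ} (M : Matrix (Fin m) (Fin m) F) (γ : ℕ → ℝ)
    (K : ℝ) (hM : ∀ i j, ‖M i j‖ ≤ K * (γ i * γ j)) :
    ‖M.det‖ ≤ m.factorial * (K ^ m * (∏ i ∈ range m, γ i) ^ 2) := by
  rw [Matrix.det_apply]
  calc ‖∑ σ : Equiv.Perm (Fin m), Equiv.Perm.sign σ • ∏ i, M (σ i) i‖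
      ≤ ∑ σ : Equiv.Perm (Fin m), ‖Equiv.Perm.sign σ • ∏ i, M (σ i) i‖ := norm_sum_le _ _
    _ ≤ ∑ _σ : Equiv.Perm (Fin m), K ^ m * (∏ i ∈ range m, γ i) ^ 2 := by
        refine sum_le_sum fun σ _ => ?_
        have h1 : ‖Equiv.Perm.sign σ • ∏ i, M (σ i) i‖ = ∏ i, ‖M (σ i) i‖ := by
          rcases Int.units_eq_one_or (Equiv.Perm.sign σ) with h | h
          · rw [h, one_smul, norm_prod]
          · rw [h, Units.neg_smul, one_smul, norm_neg, norm_prod]
        rw [h1]
        calc ∏ i, ‖M (σ i) i‖ ≤ ∏ i : Fin m, (K * (γ (σ i) * γ i)) :=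
              prod_le_prod (fun i _ => norm_nonneg _) fun i _ => hM _ _
          _ = K ^ m * (∏ i ∈ range m, γ i) ^ 2 := by
              rw [prod_mul_distrib, prod_mul_distrib, prod_const, card_univ, Fintype.card_fin,
                Equiv.prod_comp σ (fun i : Fin m => γ i), Finset.prod_range, sq]
    _ = m.factorial * (K ^ m * (∏ i ∈ range m, γ i) ^ 2) := by
        rw [sum_const, card_univ, Fintype.card_perm, Fintype.card_fin, nsmul_eq_mul]

/-- `D ^ i / (i !) ^ σ` -/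
def gam (D σ : ℝ) (i : ℕ) : ℝ := D ^ i / (i.factorial : ℝ) ^ σ

lemma gam_nonneg {D : ℝ} (hD : 0 ≤ D) (σ : ℝ) (i : ℕ) : 0 ≤ gam D σ i := by
  unfold gam
  positivity

lemma gam_mul_le_left {C σ : ℝ} (hC : 0 ≤ C) (hσ : 0 ≤ σ) (s t : ℕ) :
    gam C σ s * gam C σ t ≤ gam (C * 2 ^ σ) σ (s + t) := by
  unfold gam
  have h1 : ((s + t).factorial : ℝ) ≤ 2 ^ (s + t) * (s.factorial * t.factorial) := by
    have h2 : (s + t).factorial = (s + t).choose s * s.factorial * t.factorial := by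
      have := Nat.choose_mul_factorial_mul_factorial (n := s + t) (k := s) (by omega)
      rw [← this]
      congr 2
      omega
    rw [h2]
    have h3 : (s + t).choose s ≤ 2 ^ (s + t) := Nat.choose_le_two_pow _ _
    have h3' : (((s + t).choose s : ℕ) : ℝ) ≤ 2 ^ (s + t) := by exact_mod_cast h3
    push_cast
    rw [mul_assoc]
    gcongr
  have h4 : ((s + t).factorial : ℝ) ^ σ ≤
      (2 ^ σ) ^ (s + t) * ((s.factorial : ℝ) ^ σ * (t.factorial : ℝ) ^ σ) := by
    calc ((s + t).factorial : ℝ) ^ σ ≤ (2 ^ (s + t) * (s.factorial * t.factorial) : ℝ) ^ σ :=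
          Real.rpow_le_rpow (by positivity) h1 hσ
      _ = (2 ^ σ) ^ (s + t) * ((s.factorial : ℝ) ^ σ * (t.factorial : ℝ) ^ σ) := by
          rw [Real.mul_rpow (by positivity) (by positivity),
            Real.mul_rpow (by positivity) (by positivity), ← Real.rpow_natCast, ← Real.rpow_mul
            (by norm_num), ← Real.rpow_natCast, ← Real.rpow_mul (by norm_num), mul_comm σ]
  rw [div_mul_div_comm, div_le_div_iff₀ (by positivity) (by positivity), mul_pow]
  calc C ^ s * C ^ t * ((s + t).factorial : ℝ) ^ σ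
      ≤ C ^ s * C ^ t *
        ((2 ^ σ) ^ (s + t) * ((s.factorial : ℝ) ^ σ * (t.factorial : ℝ) ^ σ)) := by gcongr
    _ = _ := by
        rw [pow_add C]
        ring

lemma gam_add_le {D σ : ℝ} (hD : 0 ≤ D) (hσ : 0 ≤ σ) (s t : ℕ) :
    gam D σ (s + t) ≤ gam D σ s * gam D σ t := by
  unfold gam
  rw [div_mul_div_comm, ← pow_add, ← Real.mul_rpow (by positivity) (by positivity)]
  gcongr
  exact_mod_cast Nat.le_of_dvd (Nat.factorial_pos _) (Nat.factorial_mul_factorial_dvd_factorial_add s t)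

theorem arch_bound (a b : ℕ → F) {A C σ : ℝ} (hA : 0 ≤ A) (hC : 0 ≤ C) (hσ : 0 ≤ σ)
    (hb : ∀ k, ‖b k‖ ≤ A * gam C σ k) (hc : ∀ k, ‖CC a b k‖ ≤ A * gam C σ k) (m : ℕ) :
    ‖b 0‖ ^ (2 * m) * ‖(hank a m).det‖ ≤
      m.factorial * ((2 * m * A ^ 2) ^ m * (∏ i ∈ range m, gam (C * 2 ^ σ) σ i) ^ 2) := by
  have hD : 0 ≤ C * 2 ^ σ := by positivity
  have h1 : ‖b 0‖ ^ (2 * m) * ‖(hank a m).det‖ =
      ‖(Matrix.of fun i j : Fin m => GG a b i j).det‖ := by
    rw [← toep_hank, Matrix.det_mul, Matrix.det_mul, Matrix.det_transpose, det_toep, norm_mul,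
      norm_mul, norm_pow]
    ring
  rw [h1]
  refine norm_det_le _ _ _ fun i j => ?_
  rw [Matrix.of_apply]
  have hE : ∀ s t, ‖CC a b s‖ * ‖b t‖ ≤ A ^ 2 * gam (C * 2 ^ σ) σ (s + t) := by
    intro s t
    calc ‖CC a b s‖ * ‖b t‖ ≤ (A * gam C σ s) * (A * gam C σ t) := by
          gcongr
          · exact mul_nonneg hA (gam_nonneg hC _ _)
          · exact hc s
          · exact hb t
      _ = A ^ 2 * (gam C σ s * gam C σ t) := by ring
      _ ≤ _ := by
          gcongr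
          exact gam_mul_le_left hC hσ s t
  refine (GG_bound a b (fun n => A ^ 2 * gam (C * 2 ^ σ) σ n) hE i j).trans ?_
  have h2 : (2 * ((j : ℕ) : ℝ) + 1) ≤ 2 * m := by
    have := j.2
    have h3 : 2 * (j : ℕ) + 1 ≤ 2 * m := by omega
    exact_mod_cast h3
  calc (2 * ((j : ℕ) : ℝ) + 1) * (A ^ 2 * gam (C * 2 ^ σ) σ (i + j))
      ≤ (2 * m) * (A ^ 2 * (gam (C * 2 ^ σ) σ i * gam (C * 2 ^ σ) σ j)) := by
        have h4 := gam_nonneg hD σ ((i : ℕ) + j)
        gcongr
        exact gam_add_le hD hσ _ _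
    _ = _ := by ring

end Pool.Agent.W_b91de3_h49
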