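import Mathlib

set_option autoImplicit false

/-! # Kronecker's criterion: a power series whose Hankel determinants vanish from some size on
is rational. -/

noncomputable section

open Polynomial

namespace Pool.Agent.W_b91de3_h49

variable {K : Type*} [Field K]

/-- The Hankel matrix of size `m`. -/
def hank {R : Type*} (a : ℕ → R) (m : ℕ) : Matrix (Fin m) (Fin m) R :=
  Matrix.of fun i j => a ((i : ℕ) + (j : ℕ))

/-- The functional `X ^ k ↦ a k`. -/
def phi (a : ℕ → K) : K[X] →ₗ[K] K :=
  Polynomial.lsum fun k => (LinearMap.id : K →ₗ[K] K).smulRight (a k)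

lemma phi_apply (a : ℕ → K) (w : K[X]) {m : ℕ} (hw : w.natDegree < m) :
    phi a w = ∑ j ∈ Finset.range m, w.coeff j * a j := by
  rw [phi, Polynomial.lsum_apply, Polynomial.sum_over_range' _ _ m hw]
  · simp
  · simp

lemma phi_monomial (a : ℕ → K) (n : ℕ) (c : K) : phi a (monomial n c) = c * a n := by
  rw [phi, Polynomial.lsum_apply, Polynomial.sum_monomial_index]
  · simp
  · simp

lemma phi_X_pow_mul' (a : ℕ → K) (w : K[X]) (i : ℕ) :
    phi a (X ^ i * w) = phi (fun k => a (i + k)) w := by
  induction w using Polynomial.induction_on' with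
  | add p q hp hq => rw [mul_add, map_add, map_add, hp, hq]
  | monomial n c =>
    rw [X_pow_mul_monomial, phi_monomial, phi_monomial, add_comm n i]

lemma phi_X_pow_mul (a : ℕ → K) (w : K[X]) {m : ℕ} (hw : w.natDegree < m) (i : ℕ) :
    phi a (X ^ i * w) = ∑ j ∈ Finset.range m, w.coeff j * a (i + j) := by
  rw [phi_X_pow_mul', phi_apply _ _ hw]

/-- If the Hankel determinant of size `m` vanishes there is a kernel polynomial. -/
lemma exists_kernel (a : ℕ → K) (m : ℕ) (h : (hank a m).det = 0) :
    ∃ w : K[X], w ≠ 0 ∧ w.degree < m ∧ ∀ i < m, phi a (X ^ i * w) = 0 := by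
  obtain ⟨v, hv, hv'⟩ := Matrix.exists_mulVec_eq_zero_iff.mpr h
  have hcoeff : ∀ j : Fin m, (∑ i : Fin m, monomial (i : ℕ) (v i) : K[X]).coeff j = v j := by
    intro j
    rw [finsetSum_coeff, Finset.sum_eq_single j]
    · simp
    · intro i _ hij
      rw [coeff_monomial, if_neg]
      intro h
      exact hij (Fin.ext h)
    · simp
  have hdeg : (∑ i : Fin m, monomial (i : ℕ) (v i) : K[X]).degree < m := by
    rw [degree_lt_iff_coeff_zero]
    intro k hk
    rw [finsetSum_coeff]
    refine Finset.sum_eq_zero fun i _ => ?_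
    rw [coeff_monomial, if_neg]
    have := i.2
    omega
  have hne : (∑ i : Fin m, monomial (i : ℕ) (v i) : K[X]) ≠ 0 := by
    intro h0
    apply hv
    ext j
    rw [← hcoeff j, h0]
    simp
  refine ⟨∑ i : Fin m, monomial (i : ℕ) (v i), hne, hdeg, ?_⟩
  intro i hi
  rw [phi_X_pow_mul a _ ((natDegree_lt_iff_degree_lt hne).mpr hdeg), Finset.sum_range]
  have := congrFun hv' ⟨i, hi⟩
  rw [Matrix.mulVec, dotProduct] at this
  simp only [hcoeff]
  rw [Pi.zero_apply] at this
  rw [← this]
  refine Finset.sum_congr rfl fun j _ => ?_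
  rw [hank, Matrix.of_apply, mul_comm]

/-- If the Hankel determinant of size `m` does not vanish, there is no kernel polynomial. -/
lemma eq_zero_of_kernel (a : ℕ → K) (m : ℕ) (h : (hank a m).det ≠ 0) (w : K[X])
    (hw : w.degree < m) (hk : ∀ i < m, phi a (X ^ i * w) = 0) : w = 0 := by
  by_contra hne
  apply h
  rw [← Matrix.exists_mulVec_eq_zero_iff]
  have hnd : w.natDegree < m := (natDegree_lt_iff_degree_lt hne).mpr hw
  refine ⟨fun j => w.coeff j, ?_, ?_⟩
  · intro h0
    apply hne
    ext j
    by_cases hj : j < m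
    · exact congrFun h0 ⟨j, hj⟩
    · rw [coeff_zero]
      exact coeff_eq_zero_of_natDegree_lt (by omega)
  · ext i
    have := hk i i.2
    rw [phi_X_pow_mul a _ hnd, Finset.sum_range] at this
    rw [Pi.zero_apply, ← this, Matrix.mulVec, dotProduct]
    refine Finset.sum_congr rfl fun j _ => ?_
    rw [hank, Matrix.of_apply, mul_comm]

lemma phi_mul_eq_zero (a : ℕ → K) (c : K[X]) (n : ℕ) (h : ∀ i < n, phi a (X ^ i * c) = 0)
    (q : K[X]) (hq : q.degree < n) : phi a (q * c) = 0 := by
  rcases eq_or_ne q 0 with h0 | h0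
  · rw [h0, zero_mul, map_zero]
  have h1 : q * c = ∑ i ∈ Finset.range n, q.coeff i • (X ^ i * c) := by
    conv_lhs => rw [q.as_sum_range' n ((natDegree_lt_iff_degree_lt h0).mpr hq)]
    rw [Finset.sum_mul]
    refine Finset.sum_congr rfl fun i _ => ?_
    rw [← C_mul_X_pow_eq_monomial, smul_eq_C_mul, mul_assoc]
  rw [h1, map_sum]
  refine Finset.sum_eq_zero fun i hi => ?_
  rw [map_smul, h i (Finset.mem_range.mp hi), smul_zero]

/-- **Kronecker's criterion.** -/
theorem kronecker_hankel (a : ℕ → K) (m0 : ℕ) (h : ∀ m, m0 ≤ m → (hank a m).det = 0) :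
    ∃ c : K[X], c ≠ 0 ∧ ∀ i, phi a (X ^ i * c) = 0 := by
  classical
  -- the last size with a nonzero determinant
  have hex : ∃ p, ∀ m, p < m → (hank a m).det = 0 := ⟨m0, fun m hm => h m hm.le⟩
  set p := Nat.find hex with hp
  have hp1 : ∀ m, p < m → (hank a m).det = 0 := Nat.find_spec hex
  have hp2 : (hank a p).det ≠ 0 := by
    intro h0
    rcases Nat.eq_zero_or_pos p with h1 | h1
    · rw [h1] at h0
      rw [Matrix.det_isEmpty] at h0
      exact one_ne_zero h0
    · refine Nat.find_min hex (m := p - 1) (by omega) fun m hm => ?_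
      rcases Nat.lt_or_ge p m with h2 | h2
      · exact hp1 m h2
      · have : m = p := by omega
        rw [this]
        exact h0
  obtain ⟨c, hc0, hcd, hck⟩ := exists_kernel a (p + 1) (hp1 _ (Nat.lt_succ_self p))
  have hcnd : c.natDegree = p := by
    have h1 : c.natDegree < p + 1 := (natDegree_lt_iff_degree_lt hc0).mpr hcd
    rcases Nat.lt_or_ge c.natDegree p with h2 | h2
    · exact absurd (eq_zero_of_kernel a p hp2 c ((natDegree_lt_iff_degree_lt hc0).mp h2)
        fun i hi => hck i (by omega)) hc0
    · omega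
  refine ⟨c, hc0, ?_⟩
  intro i
  induction i using Nat.strong_induction_on with
  | _ m ih =>
    rcases Nat.lt_or_ge m (p + 1) with hm | hm
    · exact hck m hm
    obtain ⟨w, hw0, hwd, hwk⟩ := exists_kernel a (m + 1) (hp1 _ (by omega))
    -- divide `w` by `c`
    have hdiv := EuclideanDomain.div_add_mod w c
    set q := w / c with hq
    set r := w % c with hr
    have hrd : r.degree < p := by
      have : r.degree < c.degree := EuclideanDomain.mod_lt w hc0
      rwa [degree_eq_natDegree hc0, hcnd] at this
    have hwn : w.natDegree < m + 1 := (natDegree_lt_iff_degree_lt hw0).mpr hwd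
    have hqd : q = 0 ∨ q.natDegree + p ≤ m := by
      rcases eq_or_ne q 0 with h0 | h0
      · exact Or.inl h0
      · right
        have h1 : (c * q).degree = w.degree := by
          rw [← hdiv]
          refine (degree_add_eq_left_of_degree_lt ?_).symm
          rw [degree_mul, degree_eq_natDegree hc0, hcnd, degree_eq_natDegree h0]
          refine lt_of_lt_of_le hrd ?_
          exact_mod_cast Nat.le_add_right _ _
        have h2 : (c * q).natDegree = w.natDegree := natDegree_eq_of_degree_eq h1
        rw [natDegree_mul hc0 h0, hcnd] at h2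
        omega
    have hr0 : r = 0 := by
      apply eq_zero_of_kernel a p hp2 r hrd
      intro i hi
      have h1 : phi a (X ^ i * w) = 0 := hwk i (by omega)
      rw [← hdiv, mul_add, map_add] at h1
      have h2 : phi a (X ^ i * (c * q)) = 0 := by
        have : X ^ i * (c * q) = (X ^ i * q) * c := by ring
        rw [this]
        refine phi_mul_eq_zero a c m ih _ ?_
        rcases eq_or_ne q 0 with h0 | h0
        · rw [h0, mul_zero, degree_zero]
          exact WithBot.bot_lt_coe _
        · rw [← natDegree_lt_iff_degree_lt (mul_ne_zero (pow_ne_zero _ X_ne_zero) h0),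
            natDegree_mul (pow_ne_zero _ X_ne_zero) h0, natDegree_X_pow]
          have := hqd.resolve_left h0
          omega
      rwa [h2, zero_add] at h1
    rw [hr0, add_zero] at hdiv
    have hq0 : q ≠ 0 := by
      rintro h0
      rw [h0, mul_zero] at hdiv
      exact hw0 hdiv.symm
    have hqd' : q.natDegree + p ≤ m := hqd.resolve_left hq0
    have h1 : phi a (X ^ (m - q.natDegree) * w) = 0 := hwk _ (by omega)
    -- the leading term
    have h2 : X ^ (m - q.natDegree) * w =
        (X ^ (m - q.natDegree) * q.eraseLead) * c + q.leadingCoeff • (X ^ m * c) := by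
      have h3 : (X : K[X]) ^ m = X ^ (m - q.natDegree) * X ^ q.natDegree := by
        rw [← pow_add]
        congr 1
        omega
      rw [← hdiv, h3, smul_eq_C_mul]
      nth_rewrite 2 [← q.eraseLead_add_C_mul_X_pow]
      ring
    rw [h2, map_add, phi_mul_eq_zero a c m ih, zero_add, map_smul, smul_eq_mul] at h1
    · exact (mul_eq_zero.mp h1).resolve_left (leadingCoeff_ne_zero.mpr hq0)
    · rcases eq_or_ne q.eraseLead 0 with h0 | h0
      · rw [h0, mul_zero, degree_zero]
        exact WithBot.bot_lt_coe _
      · rw [← natDegree_lt_iff_degree_lt (mul_ne_zero (pow_ne_zero _ X_ne_zero) h0),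
          natDegree_mul (pow_ne_zero _ X_ne_zero) h0, natDegree_X_pow]
        have h3 : q.eraseLead.natDegree < q.natDegree :=
          natDegree_lt_natDegree h0 (degree_eraseLead_lt hq0)
        omega

/-- Hankel determinants vanishing from some size on force rationality. -/
theorem rational_of_hankel (a : ℕ → K) (m0 : ℕ) (h : ∀ m, m0 ≤ m → (hank a m).det = 0) :
    ∃ u v : K[X], v ≠ 0 ∧ (v : PowerSeries K) * PowerSeries.mk a = (u : PowerSeries K) := by
  obtain ⟨c, hc0, hc⟩ := kronecker_hankel a m0 h
  set p := c.natDegree with hp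
  refine ⟨PowerSeries.trunc p ((c.reverse : PowerSeries K) * PowerSeries.mk a), c.reverse,
    by simpa using hc0, ?_⟩
  ext n
  rw [Polynomial.coeff_coe, PowerSeries.coeff_trunc]
  split_ifs with hn
  · rfl
  · rw [PowerSeries.coeff_mul, Finset.Nat.sum_antidiagonal_eq_sum_range_succ_mk]
    have h1 := hc (n - p)
    rw [phi_X_pow_mul a c (Nat.lt_succ_self _)] at h1
    have h2 : Finset.range (p + 1) ⊆ Finset.range (n + 1) := by
      intro i hi
      simp only [Finset.mem_range] at hi ⊢
      omega
    rw [← Finset.sum_subset h2]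
    · rw [← Finset.sum_range_reflect] at h1
      rw [← h1]
      refine Finset.sum_congr rfl fun i hi => ?_
      rw [Finset.mem_range] at hi
      rw [Polynomial.coeff_coe, PowerSeries.coeff_mk, coeff_reverse, revAt_le (by omega)]
      have e1 : p + 1 - 1 - i = p - i := by omega
      have e2 : n - p + (p + 1 - 1 - i) = n - i := by omega
      rw [e2, e1]
    · intro i _ hi
      rw [Finset.mem_range] at hi
      rw [Polynomial.coeff_coe, coeff_eq_zero_of_natDegree_lt, zero_mul]
      exact lt_of_le_of_lt (reverse_natDegree_le c) (by omega)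

end Pool.Agent.W_b91de3_h49
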