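import Mathlib
import Pool.Prelude.Def_F_fc9cdd2f
import Pool.Agent.W_MP_b91de3_nt.Forms

set_option autoImplicit false

/-! # Denominators of the Taylor coefficients of a solution of an algebraic ODE:
`N ^ (k + 1) * k ! * a k` is an integer. -/

noncomputable section

open MvPolynomial PowerSeries N27ec9e13

namespace Pool.Agent.W_b91de3_h49

/-- the subring of the integers in the rationals -/
def Zr : Subring ℚ := (Int.castRingHom ℚ).range

lemma mem_Zr {x : ℚ} : x ∈ Zr ↔ ∃ z : ℤ, x = z := by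
  rw [Zr, RingHom.mem_range]
  constructor
  · rintro ⟨z, hz⟩
    exact ⟨z, hz.symm⟩
  · rintro ⟨z, hz⟩
    exact ⟨z, hz.symm⟩

lemma natCast_mem_Zr (n : ℕ) : (n : ℚ) ∈ Zr := mem_Zr.mpr ⟨n, by simp⟩

lemma intCast_mem_Zr (n : ℤ) : (n : ℚ) ∈ Zr := mem_Zr.mpr ⟨n, rfl⟩

variable {σ : Type*}

/-- The value of an integral polynomial at a rational point has a controlled denominator. -/
lemma aeval_mem_Zr (T : ℚ) (hT : T ∈ Zr) (x : σ → ℚ) (hx : ∀ i, T * x i ∈ Zr)
    (A : MvPolynomial σ ℤ) (D : ℕ) (hD : A.totalDegree ≤ D) : T ^ D * aeval x A ∈ Zr := by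
  rw [aeval_def, eval₂_eq, Finset.mul_sum]
  refine Subring.sum_mem _ fun s hs => ?_
  have h1 : (s.sum fun _ e => e) ≤ D := (le_totalDegree hs).trans hD
  have h2 : T ^ D * ((algebraMap ℤ ℚ) (coeff s A) * ∏ i ∈ s.support, x i ^ s i) =
      T ^ (D - s.sum fun _ e => e) * ((algebraMap ℤ ℚ) (coeff s A) *
        ∏ i ∈ s.support, (T * x i) ^ s i) := by
    have h3 : T ^ D = T ^ (D - s.sum fun _ e => e) * ∏ i ∈ s.support, T ^ s i := by
      rw [Finset.prod_pow_eq_pow_sum, ← pow_add]
      congr 1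
      rw [Finsupp.sum] at h1 ⊢
      omega
    rw [h3]
    simp only [mul_pow, Finset.prod_mul_distrib]
    ring
  rw [h2]
  refine Zr.mul_mem (Zr.pow_mem hT _) (Zr.mul_mem (intCast_mem_Zr _) ?_)
  exact Subring.prod_mem _ fun i _ => Zr.pow_mem (hx i) _

lemma totalDegree_pderiv_le {R : Type*} [CommRing R] (i : σ) (A : MvPolynomial σ R) :
    (pderiv i A).totalDegree ≤ A.totalDegree := by
  classical
  conv_lhs => rw [A.as_sum, map_sum]
  refine totalDegree_finsetSum_le fun s hs => ?_
  rw [pderiv_monomial]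
  refine (totalDegree_monomial_le _ _).trans ?_
  refine le_trans ?_ (le_totalDegree hs)
  exact Finsupp.sum_le_sum_index tsub_le_self (fun _ _ => monotone_id) (fun _ _ => rfl)

/-- clearing the denominators of a polynomial -/
lemma exists_int_poly (p : MvPolynomial σ ℚ) :
    ∃ d : ℕ, d ≠ 0 ∧ ∀ e : ℕ, ∃ P : MvPolynomial σ ℤ,
      MvPolynomial.map (Int.castRingHom ℚ) P = ((d * e : ℕ) : ℚ) • p := by
  classical
  refine ⟨∏ s ∈ p.support, (coeff s p).den, ?_, ?_⟩
  · rw [Finset.prod_ne_zero_iff]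
    intro s _
    exact (coeff s p).den_nz
  · intro e
    have h1 : ((((∏ s ∈ p.support, (coeff s p).den) * e : ℕ) : ℚ) • p) ∈
        Set.range (MvPolynomial.map (Int.castRingHom ℚ)) := by
      rw [mem_range_map_iff_coeffs_subset]
      intro c hc
      rw [Finset.mem_coe, mem_coeffs_iff] at hc
      obtain ⟨s, hs, rfl⟩ := hc
      have hs' : s ∈ p.support := by
        rw [mem_support_iff] at hs ⊢
        intro h0
        apply hs
        rw [MvPolynomial.coeff_smul, h0, smul_zero]
      rw [MvPolynomial.coeff_smul, smul_eq_mul]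
      refine ⟨(∏ s ∈ p.support.erase s, ((coeff s p).den : ℤ)) * e * (coeff s p).num, ?_⟩
      rw [← Finset.mul_prod_erase _ _ hs']
      push_cast
      have h2 := Rat.den_mul_eq_num (coeff s p)
      simp only [eq_intCast, Int.cast_mul, Int.cast_prod, Int.cast_natCast]
      rw [← h2]
      ring
    obtain ⟨P, hP⟩ := h1
    exact ⟨P, hP⟩

/-- the point `(z, f, f', ..., f^(n-1))` -/
def pnt (n : ℕ) (f : PowerSeries ℚ) : Fin (n + 1) → PowerSeries ℚ :=
  Fin.cases X (fun i : Fin n ↦ (derivative ℚ)^[i.val] f)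

/-- the components of the vector field, multiplied by `Q` -/
def vf (n : ℕ) (P Q : MvPolynomial (Fin (n + 1)) ℤ) : Fin (n + 1) → MvPolynomial (Fin (n + 1)) ℤ :=
  Fin.cases Q fun i : Fin n =>
    if h : (i : ℕ) + 1 < n then Q * MvPolynomial.X (Fin.succ ⟨(i : ℕ) + 1, h⟩) else P

/-- the derivation along the vector field, multiplied by `Q` -/
def del (n : ℕ) (P Q B : MvPolynomial (Fin (n + 1)) ℤ) : MvPolynomial (Fin (n + 1)) ℤ :=
  ∑ j, vf n P Q j * pderiv j B

lemma aeval_vf {n : ℕ} {f : PowerSeries ℚ} {P Q : MvPolynomial (Fin (n + 1)) ℤ}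
    (h : (derivative ℚ)^[n] f * aeval (pnt n f) Q = aeval (pnt n f) P) (j : Fin (n + 1)) :
    aeval (pnt n f) (vf n P Q j) = aeval (pnt n f) Q * derivative ℚ (pnt n f j) := by
  refine Fin.cases ?_ (fun i => ?_) j
  · simp [vf, pnt]
  · have h1 : derivative ℚ (pnt n f i.succ) = (derivative ℚ)^[(i : ℕ) + 1] f := by
      rw [Function.iterate_succ_apply']
      rfl
    rw [h1]
    by_cases hi : (i : ℕ) + 1 < n
    · have h2 : vf n P Q i.succ = Q * MvPolynomial.X (Fin.succ ⟨(i : ℕ) + 1, hi⟩) := by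
        simp only [vf, Fin.cases_succ]
        rw [dif_pos hi]
      rw [h2, map_mul, aeval_X]
      rfl
    · have h2 : vf n P Q i.succ = P := by
        simp only [vf, Fin.cases_succ]
        rw [dif_neg hi]
      have h3 : (i : ℕ) + 1 = n := by
        have := i.2
        omega
      rw [h2, ← h, h3, mul_comm]

lemma aeval_del {n : ℕ} {f : PowerSeries ℚ} {P Q : MvPolynomial (Fin (n + 1)) ℤ}
    (h : (derivative ℚ)^[n] f * aeval (pnt n f) Q = aeval (pnt n f) P)
    (B : MvPolynomial (Fin (n + 1)) ℤ) :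
    aeval (pnt n f) (del n P Q B) = aeval (pnt n f) Q * derivative ℚ (aeval (pnt n f) B) := by
  have h1 := W_MP_b91de3_nt.chain_rule ((derivative ℚ).restrictScalars ℤ) (pnt n f) B
  have h2 : derivative ℚ (aeval (pnt n f) B) =
      ∑ i, aeval (pnt n f) (pderiv i B) * derivative ℚ (pnt n f i) := h1
  rw [h2, del, map_sum, Finset.mul_sum]
  refine Finset.sum_congr rfl fun j _ => ?_
  rw [map_mul, aeval_vf h]
  ring

/-- the numerators of the higher derivatives -/
def num (n : ℕ) (P Q : MvPolynomial (Fin (n + 1)) ℤ) : ℕ → MvPolynomial (Fin (n + 1)) ℤ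
  | 0 => P
  | k + 1 => Q * del n P Q (num n P Q k) - ((2 * k + 1 : ℕ) : MvPolynomial (Fin (n + 1)) ℤ) *
      num n P Q k * del n P Q Q

lemma aeval_num {n : ℕ} {f : PowerSeries ℚ} {P Q : MvPolynomial (Fin (n + 1)) ℤ}
    (h : (derivative ℚ)^[n] f * aeval (pnt n f) Q = aeval (pnt n f) P) (k : ℕ) :
    aeval (pnt n f) (num n P Q k) =
      (derivative ℚ)^[n + k] f * (aeval (pnt n f) Q) ^ (2 * k + 1) := by
  induction k with
  | zero => simpa [num] using h.symm
  | succ k ih =>
    rw [num, map_sub, map_mul, map_mul, map_mul, aeval_del h, aeval_del h, ih, map_natCast,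
      Derivation.leibniz, Derivation.leibniz_pow]
    have h1 : derivative ℚ ((derivative ℚ)^[n + k] f) = (derivative ℚ)^[n + (k + 1)] f := by
      rw [← Function.iterate_succ_apply' (f := derivative ℚ)]
      rfl
    rw [h1]
    simp only [smul_eq_mul, nsmul_eq_mul]
    push_cast
    ring

lemma totalDegree_vf_le (n : ℕ) (P Q : MvPolynomial (Fin (n + 1)) ℤ) (j : Fin (n + 1)) :
    (vf n P Q j).totalDegree ≤ P.totalDegree + Q.totalDegree + 1 := by
  refine Fin.cases ?_ (fun i => ?_) j
  · simp only [vf, Fin.cases_zero]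
    omega
  · simp only [vf, Fin.cases_succ]
    split_ifs with hi
    · refine (totalDegree_mul _ _).trans ?_
      rw [totalDegree_X]
      omega
    · omega

lemma totalDegree_del_le (n : ℕ) (P Q B : MvPolynomial (Fin (n + 1)) ℤ) :
    (del n P Q B).totalDegree ≤ P.totalDegree + Q.totalDegree + 1 + B.totalDegree := by
  refine totalDegree_finsetSum_le fun j _ => ?_
  refine (totalDegree_mul _ _).trans ?_
  exact add_le_add (totalDegree_vf_le n P Q j) (totalDegree_pderiv_le j B)

lemma totalDegree_num_le (n : ℕ) (P Q : MvPolynomial (Fin (n + 1)) ℤ) (k : ℕ) :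
    (num n P Q k).totalDegree ≤ (2 * k + 1) * (P.totalDegree + Q.totalDegree + 1) := by
  induction k with
  | zero =>
    simp only [num]
    omega
  | succ k ih =>
    rw [num]
    have h0 := totalDegree_del_le n P Q (num n P Q k)
    have h0' := totalDegree_del_le n P Q Q
    refine (totalDegree_sub _ _).trans (max_le ?_ ?_)
    · refine (totalDegree_mul _ _).trans ?_
      have h1 : (2 * (k + 1) + 1) * (P.totalDegree + Q.totalDegree + 1) =
        (2 * k + 1) * (P.totalDegree + Q.totalDegree + 1) +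
          2 * (P.totalDegree + Q.totalDegree + 1) := by ring
      omega
    · have h1 : (2 * (k + 1) + 1) * (P.totalDegree + Q.totalDegree + 1) =
        (2 * k + 1) * (P.totalDegree + Q.totalDegree + 1) +
          2 * (P.totalDegree + Q.totalDegree + 1) := by ring
      refine (totalDegree_mul _ _).trans ?_
      have h2 : ((((2 * k + 1 : ℕ) : MvPolynomial (Fin (n + 1)) ℤ)) *
          num n P Q k).totalDegree ≤ (num n P Q k).totalDegree := by
        refine (totalDegree_mul _ _).trans ?_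
        have h3 : (((2 * k + 1 : ℕ) : MvPolynomial (Fin (n + 1)) ℤ)) =
            MvPolynomial.C ((2 * k + 1 : ℕ) : ℤ) := by simp
        rw [h3, totalDegree_C, zero_add]
      omega

/-- the constant terms of `(z, f, f', ..., f^(n-1))` -/
def pnt0 (n : ℕ) (f : PowerSeries ℚ) (i : Fin (n + 1)) : ℚ := PowerSeries.constantCoeff (pnt n f i)

lemma constantCoeff_aeval {n : ℕ} (f : PowerSeries ℚ) (B : MvPolynomial (Fin (n + 1)) ℤ) :
    PowerSeries.constantCoeff (aeval (pnt n f) B) = aeval (pnt0 n f) B := by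
  induction B using MvPolynomial.induction_on with
  | C a => simp
  | add p q hp hq => rw [map_add, map_add, map_add, hp, hq]
  | mul_X p i hp => rw [map_mul, map_mul, map_mul, hp, aeval_X, aeval_X, pnt0]

/-- The denominators of the Taylor coefficients of a solution of an algebraic ODE. -/
theorem ode_denominators {n : ℕ} {f : PowerSeries ℚ} {g : MvRatFunc (Fin (n + 1)) ℚ}
    (hf : IsSolutionOfAlgebraicODE n f g) :
    ∃ N : ℕ, N ≠ 0 ∧ ∀ k : ℕ, (N : ℚ) ^ (k + 1) * (k.factorial * PowerSeries.coeff k f) ∈ Zr := by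
  classical
  obtain ⟨p, q, -, hq, hode⟩ := hf
  -- integral polynomials
  obtain ⟨d, hd, hd'⟩ := exists_int_poly p
  obtain ⟨e, he, he'⟩ := exists_int_poly q
  obtain ⟨P, hP⟩ := hd' e
  obtain ⟨Q, hQ⟩ := he' d
  have hcast : ∀ (B : MvPolynomial (Fin (n + 1)) ℤ) (x : Fin (n + 1) → PowerSeries ℚ),
      aeval x B = aeval x (MvPolynomial.map (Int.castRingHom ℚ) B) := by
    intro B x
    rw [← algebraMap_int_eq, MvPolynomial.aeval_map_algebraMap]
  have hcast' : ∀ (B : MvPolynomial (Fin (n + 1)) ℤ) (x : Fin (n + 1) → ℚ),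
      aeval x B = aeval x (MvPolynomial.map (Int.castRingHom ℚ) B) := by
    intro B x
    rw [← algebraMap_int_eq, MvPolynomial.aeval_map_algebraMap]
  have hode' : (derivative ℚ)^[n] f * aeval (pnt n f) Q = aeval (pnt n f) P := by
    rw [hcast, hcast, hP, hQ, map_smul, map_smul, mul_comm e d, mul_smul_comm]
    congr 1
  have hQ0 : aeval (pnt0 n f) Q ≠ 0 := by
    rw [hcast', hQ, map_smul]
    refine smul_ne_zero ?_ hq
    exact_mod_cast mul_ne_zero he hd
  set w : ℚ := aeval (pnt0 n f) Q with hw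
  -- the common denominator of the point
  set T : ℕ := ∏ i, (pnt0 n f i).den with hT
  have hT0 : T ≠ 0 := by
    rw [hT, Finset.prod_ne_zero_iff]
    exact fun i _ => (pnt0 n f i).den_nz
  have hTx : ∀ i, (T : ℚ) * pnt0 n f i ∈ Zr := by
    intro i
    rw [hT, ← Finset.mul_prod_erase _ _ (Finset.mem_univ i)]
    have h2 := Rat.den_mul_eq_num (pnt0 n f i)
    have h3 : (((pnt0 n f i).den * ∏ x ∈ Finset.univ.erase i, (pnt0 n f x).den : ℕ) : ℚ) *
        pnt0 n f i = ((∏ x ∈ Finset.univ.erase i, (pnt0 n f x).den : ℕ) : ℚ) *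
          (((pnt0 n f i).den : ℚ) * pnt0 n f i) := by
      push_cast
      ring
    rw [h3, h2]
    exact Zr.mul_mem (natCast_mem_Zr _) (intCast_mem_Zr _)
  set D := P.totalDegree + Q.totalDegree + 1 with hD
  set M : ℕ := T ^ D * w.num.natAbs with hM
  have hM0 : M ≠ 0 := by
    refine mul_ne_zero (pow_ne_zero _ hT0) ?_
    rw [Int.natAbs_ne_zero]
    exact Rat.num_ne_zero.mpr hQ0
  have hkey : ∀ k : ℕ, (M : ℚ) ^ (2 * k + 1) *
      ((n + k).factorial * PowerSeries.coeff (n + k) f) ∈ Zr := by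
    intro k
    have h1 := aeval_num hode' k
    have h2 := congrArg PowerSeries.constantCoeff h1
    rw [constantCoeff_aeval, map_mul, map_pow, constantCoeff_aeval,
      PowerSeries.constantCoeff_iterate_derivative] at h2
    have h3 := aeval_mem_Zr (T : ℚ) (natCast_mem_Zr _) (pnt0 n f) hTx (num n P Q k)
      ((2 * k + 1) * D) (totalDegree_num_le n P Q k)
    rw [h2, ← hw] at h3
    have h4 : w * w.den = w.num := Rat.mul_den_eq_num w
    have h5 : (T : ℚ) ^ ((2 * k + 1) * D) *
        ((n + k).factorial * PowerSeries.coeff (n + k) f * w ^ (2 * k + 1)) *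
          (w.den : ℚ) ^ (2 * k + 1) ∈ Zr :=
      Zr.mul_mem h3 (Zr.pow_mem (natCast_mem_Zr _) _)
    have h6 : (T : ℚ) ^ ((2 * k + 1) * D) *
        ((n + k).factorial * PowerSeries.coeff (n + k) f * w ^ (2 * k + 1)) *
          (w.den : ℚ) ^ (2 * k + 1) = ((T : ℚ) ^ D * w.num) ^ (2 * k + 1) *
      ((n + k).factorial * PowerSeries.coeff (n + k) f) := by
      rw [← h4, mul_pow, mul_pow, ← pow_mul, mul_comm D]
      ring
    rw [h6] at h5
    rcases Int.natAbs_eq w.num with h7 | h7
    · have h8 : (M : ℚ) = (T : ℚ) ^ D * w.num := by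
        have h9 : ((w.num.natAbs : ℕ) : ℚ) = w.num := by
          rw [← Int.cast_natCast (R := ℚ), ← h7]
        rw [hM, Nat.cast_mul, Nat.cast_pow, h9]
      rw [h8]
      exact h5
    · have h8 : (M : ℚ) = -((T : ℚ) ^ D * w.num) := by
        have h9 : (w.num : ℚ) = -((w.num.natAbs : ℕ) : ℚ) := by exact_mod_cast h7
        rw [hM, Nat.cast_mul, Nat.cast_pow, h9]
        ring
      rw [h8, neg_pow, Odd.neg_one_pow ⟨k, rfl⟩]
      have h9 := Zr.neg_mem h5
      convert h9 using 1
      ring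
  -- the small indices
  set R : ℕ := ∏ j ∈ Finset.range n, (PowerSeries.coeff j f).den with hR
  have hR0 : R ≠ 0 := by
    rw [hR, Finset.prod_ne_zero_iff]
    exact fun i _ => (PowerSeries.coeff i f).den_nz
  refine ⟨R * M ^ 2, mul_ne_zero hR0 (pow_ne_zero _ hM0), ?_⟩
  intro k
  rcases Nat.lt_or_ge k n with hk | hk
  · have h1 : (R : ℚ) * PowerSeries.coeff k f ∈ Zr := by
      rw [hR, ← Finset.mul_prod_erase _ _ (Finset.mem_range.mpr hk)]
      have h2 := Rat.den_mul_eq_num (PowerSeries.coeff k f)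
      have h3 : (((PowerSeries.coeff k f).den *
          ∏ x ∈ (Finset.range n).erase k, (PowerSeries.coeff x f).den : ℕ) : ℚ) *
          PowerSeries.coeff k f =
          ((∏ x ∈ (Finset.range n).erase k, (PowerSeries.coeff x f).den : ℕ) : ℚ) *
            (((PowerSeries.coeff k f).den : ℚ) * PowerSeries.coeff k f) := by
        push_cast
        ring
      rw [h3, h2]
      exact Zr.mul_mem (natCast_mem_Zr _) (intCast_mem_Zr _)
    have h2 : ((R * M ^ 2 : ℕ) : ℚ) ^ (k + 1) * (k.factorial * PowerSeries.coeff k f) =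
        ((R ^ k * (M ^ 2) ^ (k + 1) * k.factorial : ℕ) : ℚ) * ((R : ℚ) * PowerSeries.coeff k f) := by
      push_cast
      ring
    rw [h2]
    exact Zr.mul_mem (natCast_mem_Zr _) h1
  · obtain ⟨j, rfl⟩ := Nat.exists_eq_add_of_le hk
    have h1 := hkey j
    have h2 : ((R * M ^ 2 : ℕ) : ℚ) ^ (n + j + 1) *
        ((n + j).factorial * PowerSeries.coeff (n + j) f) =
        ((R ^ (n + j + 1) * M ^ (2 * n + 1) : ℕ) : ℚ) *
          ((M : ℚ) ^ (2 * j + 1) * ((n + j).factorial * PowerSeries.coeff (n + j) f)) := by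
      push_cast
      ring
    rw [h2]
    exact Zr.mul_mem (natCast_mem_Zr _) h1

end Pool.Agent.W_b91de3_h49
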