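import Pool.Agent.W_b91de3_h49.Mert
import Pool.Agent.W_b91de3_h49.Ode
import Pool.Agent.W_b91de3_h49.Kron

set_option autoImplicit false

/-! # Denominators of the Hankel determinants -/

noncomputable section

open Finset Nat

namespace Pool.Agent.W_b91de3_h49

/-- the `Y`-smooth part of `n` -/
def smp (Y n : ℕ) : ℕ := ∏ p ∈ primesLE Y, p ^ n.factorization p

lemma smp_pos (Y n : ℕ) : 0 < smp Y n :=
  prod_pos fun _ hp => pow_pos (Nat.mem_primesLE.mp hp).2.pos _

lemma smp_mul (Y : ℕ) {a b : ℕ} (ha : a ≠ 0) (hb : b ≠ 0) :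
    smp Y (a * b) = smp Y a * smp Y b := by
  rw [smp, smp, smp, ← prod_mul_distrib]
  refine prod_congr rfl fun p _ => ?_
  rw [Nat.factorization_mul ha hb, Finsupp.add_apply, pow_add]

lemma smp_prod (Y : ℕ) {ι : Type*} (s : Finset ι) (g : ι → ℕ) (hg : ∀ i ∈ s, g i ≠ 0) :
    smp Y (∏ i ∈ s, g i) = ∏ i ∈ s, smp Y (g i) := by
  classical
  induction s using Finset.induction_on with
  | empty => simp [smp]
  | insert i s hi ih =>
    rw [prod_insert hi, prod_insert hi, smp_mul Y (hg i (mem_insert_self i s)) ?_, ih]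
    · exact fun j hj => hg j (mem_insert_of_mem hj)
    · rw [prod_ne_zero_iff]
      exact fun j hj => hg j (mem_insert_of_mem hj)

lemma smp_dvd (Y : ℕ) {a b : ℕ} (hb : b ≠ 0) (h : a ∣ b) : smp Y a ∣ smp Y b := by
  obtain ⟨c, rfl⟩ := h
  rw [smp_mul Y (left_ne_zero_of_mul hb) (right_ne_zero_of_mul hb)]
  exact Dvd.intro _ rfl

lemma dvd_of_smooth {Y d M k : ℕ} (hM : M ≠ 0) (hk : k ≠ 0) (hd : d ∣ M * k)
    (hY : ∀ p : ℕ, p.Prime → p ∣ d → p ≤ Y) : d ∣ M * smp Y k := by
  have hd0 : d ≠ 0 := by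
    rintro rfl
    exact mul_ne_zero hM hk (zero_dvd_iff.mp hd)
  rw [← Nat.factorization_prime_le_iff_dvd hd0 (mul_ne_zero hM (smp_pos Y k).ne')]
  intro p hp
  by_cases hpd : p ∣ d
  · have h1 := (Nat.factorization_le_iff_dvd hd0 (mul_ne_zero hM hk)).mpr hd p
    rw [Nat.factorization_mul hM hk, Finsupp.add_apply] at h1
    rw [Nat.factorization_mul hM (smp_pos Y k).ne', Finsupp.add_apply]
    have h2 : k.factorization p ≤ (smp Y k).factorization p := by
      have h3 : p ^ k.factorization p ∣ smp Y k :=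
        dvd_prod_of_mem (fun p => p ^ k.factorization p)
          (Nat.mem_primesLE.mpr ⟨hY p hp hpd, hp⟩)
      rwa [hp.pow_dvd_iff_le_factorization (smp_pos Y k).ne'] at h3
    omega
  · rw [Nat.factorization_eq_zero_of_not_dvd hpd]
    exact Nat.zero_le _

/-- The determinant has denominator dividing `N ^ (m ^ 2) * smp Y ((m (m - 1))!)`. -/
theorem det_mem_Zr (a : ℕ → ℚ) {N : ℕ} (hN : N ≠ 0) (Y m : ℕ)
    (ha : ∀ k, (N : ℚ) ^ (k + 1) * (k.factorial * a k) ∈ Zr)
    (hY : ∀ k, k < 2 * m → ∀ p : ℕ, p.Prime → p ∣ (a k).den → p ≤ Y) :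
    ((N ^ (m ^ 2) * smp Y ((m * (m - 1)).factorial) : ℕ) : ℚ) * (hank a m).det ∈ Zr := by
  rw [Matrix.det_apply, mul_sum]
  refine Subring.sum_mem _ fun σ _ => ?_
  -- the sum of the indices
  have hsum : ∑ i : Fin m, ((σ i : ℕ) + (i : ℕ)) = m * (m - 1) := by
    rw [sum_add_distrib, Equiv.sum_comp σ (fun i : Fin m => (i : ℕ)),
      ← Finset.sum_range (fun i => i), ← Finset.sum_range_id_mul_two]
    ring
  have hden : ∀ i : Fin m, (a ((σ i : ℕ) + (i : ℕ))).den ∣
      N ^ (((σ i : ℕ) + (i : ℕ)) + 1) * smp Y (((σ i : ℕ) + (i : ℕ)).factorial) := by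
    intro i
    set k := (σ i : ℕ) + (i : ℕ) with hk
    have hkm : k < 2 * m := by
      have h1 := (σ i).2
      have h2 := i.2
      omega
    refine dvd_of_smooth (pow_ne_zero _ hN) (Nat.factorial_ne_zero k) ?_ (hY k hkm)
    obtain ⟨z, hz⟩ := mem_Zr.mp (ha k)
    have hn : ((N ^ (k + 1) * k.factorial : ℕ) : ℚ) ≠ 0 := by
      exact_mod_cast mul_ne_zero (pow_ne_zero _ hN) (Nat.factorial_ne_zero k)
    have h1 : a k = (z : ℚ) / (((N ^ (k + 1) * k.factorial : ℕ) : ℤ) : ℚ) := by
      rw [eq_div_iff (by exact_mod_cast hn), ← hz]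
      push_cast
      ring
    rw [h1]
    exact_mod_cast Rat.den_dvd z ((N ^ (k + 1) * k.factorial : ℕ) : ℤ)
  have hprod : ∏ i : Fin m, (a ((σ i : ℕ) + (i : ℕ))).den ∣
      N ^ (m ^ 2) * smp Y ((m * (m - 1)).factorial) := by
    refine (prod_dvd_prod_of_dvd _ _ fun i _ => hden i).trans ?_
    rw [prod_mul_distrib, prod_pow_eq_pow_sum, ← smp_prod Y _ _
      (fun i _ => Nat.factorial_ne_zero _)]
    refine mul_dvd_mul ?_ ?_
    · refine pow_dvd_pow _ ?_
      rw [sum_add_distrib, hsum]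
      rw [Finset.sum_const, smul_eq_mul, mul_one, Finset.card_univ, Fintype.card_fin]
      rcases m with _ | m
      · simp
      · simp only [Nat.add_sub_cancel]
        nlinarith
    · refine smp_dvd Y (Nat.factorial_ne_zero _) ?_
      rw [← hsum]
      exact Nat.prod_factorial_dvd_factorial_sum _ _
  obtain ⟨c, hc⟩ := hprod
  have h1 : ((N ^ (m ^ 2) * smp Y ((m * (m - 1)).factorial) : ℕ) : ℚ) *
      ∏ i : Fin m, a ((σ i : ℕ) + (i : ℕ)) ∈ Zr := by
    rw [hc, Nat.cast_mul, Nat.cast_prod, mul_right_comm, ← prod_mul_distrib]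
    refine Zr.mul_mem (Subring.prod_mem _ fun i _ => ?_) (natCast_mem_Zr _)
    rw [Rat.den_mul_eq_num]
    exact intCast_mem_Zr _
  have h2 : Equiv.Perm.sign σ • ∏ i, hank a m (σ i) i =
      ((Equiv.Perm.sign σ : ℤ) : ℚ) * ∏ i : Fin m, a ((σ i : ℕ) + (i : ℕ)) := by
    rw [Units.smul_def, zsmul_eq_mul]
    rfl
  rw [h2, mul_left_comm]
  exact Zr.mul_mem (intCast_mem_Zr _) h1

/-- the size of the smooth part of a factorial -/
theorem log_smp_le {Y : ℕ} (hY : Y ≠ 0) (n : ℕ) :
    Real.log (smp Y n.factorial) ≤ n * (Real.log Y + (2 * Real.log 4 + 4)) := by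
  have h1 : Real.log (smp Y n.factorial) =
      ∑ p ∈ primesLE Y, (n.factorial.factorization p) * Real.log p := by
    rw [smp, Nat.cast_prod, Real.log_prod]
    · refine sum_congr rfl fun p _ => ?_
      rw [Nat.cast_pow, Real.log_pow]
    · intro p hp
      rw [Nat.cast_ne_zero]
      exact pow_ne_zero _ (Nat.mem_primesLE.mp hp).2.ne_zero
  rw [h1]
  calc ∑ p ∈ primesLE Y, (n.factorial.factorization p) * Real.log p
      ≤ ∑ p ∈ primesLE Y, (n : ℝ) * (Real.log p / (p - 1)) := by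
        refine sum_le_sum fun p hp => ?_
        have hpp := (Nat.mem_primesLE.mp hp).2
        have : Fact p.Prime := ⟨hpp⟩
        have h2 := sub_one_mul_padicValNat_factorial (p := p) n
        have h3 : (p - 1) * (n.factorial.factorization p) ≤ n := by
          rw [Nat.factorization_def _ hpp, h2]
          exact Nat.sub_le _ _
        have hp1 : (1 : ℝ) < p := by exact_mod_cast hpp.one_lt
        have h4 : ((p : ℝ) - 1) * (n.factorial.factorization p) ≤ n := by
          have := (Nat.cast_le (α := ℝ)).mpr h3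
          push_cast [Nat.cast_sub hpp.one_le] at this
          exact this
        have h5 : 0 ≤ Real.log p := Real.log_nonneg hp1.le
        have h6 : (0 : ℝ) < p - 1 := by linarith
        rw [← mul_div_assoc, le_div_iff₀ h6]
        calc (n.factorial.factorization p : ℝ) * Real.log p * (p - 1)
            = ((p : ℝ) - 1) * (n.factorial.factorization p) * Real.log p := by ring
          _ ≤ n * Real.log p := by gcongr
    _ = n * ∑ p ∈ primesLE Y, Real.log p / (p - 1) := by rw [mul_sum]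
    _ ≤ _ := by
        gcongr
        exact mertens_upper hY

end Pool.Agent.W_b91de3_h49
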