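import Pool.Agent.W_MP_b91de3_nt.Main

set_option autoImplicit false

/-! # Equations with constant coefficients in `(X - s) D` -/

noncomputable section

open IsDedekindDomain NumberField Filter PowerSeries N27ec9e13
open Pool.Agent.W_MP_b91de3_nt

namespace Pool.Agent.W_b91de3_h49

variable {K : Type*} [Field K]

/-- The operator `(X - s) D`. -/
def th (s : K) : Module.End K K⟦X⟧ where
  toFun u := (X - C s) * derivative K u
  map_add' u v := by rw [map_add, mul_add]
  map_smul' c u := by rw [Derivation.map_smul, mul_smul_comm, RingHom.id_apply]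

lemma th_apply (s : K) (u : K⟦X⟧) : th s u = (X - C s) * derivative K u := rfl

lemma th_mul (s : K) (u v : K⟦X⟧) : th s (u * v) = u * th s v + v * th s u := by
  rw [th_apply, th_apply, th_apply, Derivation.leibniz, smul_eq_mul, smul_eq_mul]
  ring

lemma X_sub_ne_zero (s : K) : (X - C s : K⟦X⟧) ≠ 0 := by
  intro h
  have h1 := congrArg (coeff 1) h
  rw [map_sub, coeff_one_X, coeff_C] at h1
  simp at h1

lemma th_pow (s : K) (k : ℕ) : th s ((X - C s) ^ k) = (k : K⟦X⟧) * (X - C s) ^ k := by
  rw [th_apply, Derivation.leibniz_pow]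
  have h1 : derivative K (X - C s : K⟦X⟧) = 1 := by simp
  rw [h1]
  rcases k with _ | k
  · simp
  · simp only [Nat.add_sub_cancel, nsmul_eq_mul, smul_eq_mul, mul_one]
    ring

/-- `(X - s)^n D^n` is the descending factorial of `(X - s) D` -/
lemma pow_mul_iterate (s : K) (n : ℕ) (u : K⟦X⟧) :
    (X - C s) ^ n * (derivative K)^[n] u = Polynomial.aeval (th s) (descPochhammer K n) u := by
  induction n with
  | zero => simp
  | succ n ih =>
    rw [descPochhammer_succ_right, mul_comm (descPochhammer K n), map_mul, Module.End.mul_apply,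
      ← ih]
    have h1 : Polynomial.aeval (th s) (Polynomial.X - (n : Polynomial K)) =
        th s - (n : Module.End K K⟦X⟧) := by
      rw [map_sub, Polynomial.aeval_X, map_natCast]
    rw [h1, LinearMap.sub_apply, th_mul, th_pow, Function.iterate_succ_apply', th_apply]
    have h2 : ((n : Module.End K K⟦X⟧)) ((X - C s) ^ n * (derivative K)^[n] u) =
        (n : K⟦X⟧) * ((X - C s) ^ n * (derivative K)^[n] u) := by
      rw [Module.End.natCast_apply, nsmul_eq_mul]
    rw [h2]
    ring

variable [NumberField K]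

lemma th_mem_sli (s : K) {u : K⟦X⟧} (hu : u ∈ sli K) : th s u ∈ sli K :=
  (sli K).mul_mem ((sli K).sub_mem X_mem_sli (C_mem_sli s)) (derivative_mem_sli hu)

lemma aeval_th_mem_sli (s : K) (P : Polynomial K) {u : K⟦X⟧} (hu : u ∈ sli K) :
    Polynomial.aeval (th s) P u ∈ sli K := by
  have hpow : ∀ i : ℕ, ((th s) ^ i) u ∈ sli K := by
    intro i
    induction i with
    | zero => simpa using hu
    | succ i ih =>
      rw [pow_succ', Module.End.mul_apply]
      exact th_mem_sli s ih
  rw [Polynomial.aeval_eq_sum_range, LinearMap.sum_apply]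
  refine (sli K).sum_mem fun i _ => ?_
  rw [LinearMap.smul_apply, PowerSeries.smul_eq_C_mul]
  exact (sli K).mul_mem (C_mem_sli _) (hpow i)

omit [NumberField K] in
/-- The recurrence for the eigenvectors. -/
lemma coeff_eigen {s e : K} {y : K⟦X⟧} (hy : th s y = C e * y) (j : ℕ) :
    s * ((j + 1 : ℕ) * coeff (j + 1) y) = ((j : K) - e) * coeff j y := by
  have h1 := congrArg (coeff j) hy
  rw [th_apply, sub_mul, map_sub, coeff_C_mul, coeff_C_mul, coeff_derivative] at h1
  have h2 : coeff j (X * derivative K y) = (j : K) * coeff j y := by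
    have := coeff_eul y j
    rwa [eul] at this
  rw [h2] at h1
  push_cast
  linear_combination -h1

lemma coeff_zero_ne {s e : K} (hs : s ≠ 0) {y : K⟦X⟧} (hy : th s y = C e * y) (hy0 : y ≠ 0) :
    coeff 0 y ≠ 0 := by
  intro h0
  apply hy0
  have h1 : ∀ j, coeff j y = 0 := by
    intro j
    induction j with
    | zero => exact h0
    | succ j ih =>
      have h2 := coeff_eigen hy j
      rw [ih, mul_zero] at h2
      rcases mul_eq_zero.1 h2 with h3 | h3
      · exact absurd h3 hs
      · rcases mul_eq_zero.1 h3 with h4 | h4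
        · exact absurd h4 (Nat.cast_ne_zero.2 (Nat.succ_ne_zero j))
        · exact h4
  exact PowerSeries.ext fun j => by rw [h1 j, map_zero]

/-- The exponents of superlinearly integral eigenvectors are rational. -/
lemma eigen_rational {s e : K} (hs : s ≠ 0) {y : K⟦X⟧} (hy : th s y = C e * y) (hy0 : y ≠ 0)
    (hys : y ∈ sli K) : ∃ q : ℚ, (q : K) = e := by
  set w : K⟦X⟧ := PowerSeries.mk fun j => if j = 0 then 0 else -(e * s⁻¹ ^ j) with hw
  have hss : s * s⁻¹ = 1 := mul_inv_cancel₀ hs
  have hw1 : (X - C s) * w = C e * X := by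
    ext j
    rw [sub_mul, map_sub, coeff_C_mul, coeff_C_mul]
    rcases j with _ | j
    · simp [hw]
    · rw [coeff_succ_X_mul, hw, coeff_mk, coeff_mk, if_neg (Nat.succ_ne_zero j)]
      rcases j with _ | j
      · rw [if_pos rfl, coeff_one_X]
        linear_combination e * hss
      · rw [if_neg (Nat.succ_ne_zero j), coeff_X, if_neg (by omega)]
        linear_combination (e * s⁻¹ ^ (j + 1)) * hss
  have hwy : w * y = eul y := by
    apply mul_left_cancel₀ (X_sub_ne_zero s)
    rw [← mul_assoc, hw1, eul]
    have h1 : (X - C s) * (X * derivative K y) = X * th s y := by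
      rw [th_apply]
      ring
    rw [h1, hy]
    ring
  apply kronecker (K := K)
  filter_upwards [cartier_sli hwy hys hy0 1, eventually_mem_Sv e, eventually_mem_Sv s,
    eventually_mem_Sv s⁻¹] with v hv he hsv hsv'
  have hp : (pr v).Prime := Fact.out
  have h1 := hv.2 1 le_rfl
  rw [mul_one, hw, coeff_mk, coeff_mk, if_neg hp.ne_zero, if_neg one_ne_zero, pow_one] at h1
  have hpow : s⁻¹ ^ pr v ∈ Sv v := (Sv v).pow_mem hsv' _
  have hrdpow : rd v (s⁻¹ ^ pr v) = rd v s⁻¹ ^ pr v := by
    rw [rd_of_mem hpow, rd_of_mem hsv', ← map_pow]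
    rfl
  rw [rd_neg ((Sv v).mul_mem he hpow), rd_neg ((Sv v).mul_mem he hsv'), rd_mul he hpow,
    rd_mul he hsv', hrdpow] at h1
  have h2 : (-(rd v e * rd v s⁻¹)) ^ pr v = -(rd v e ^ pr v * rd v s⁻¹ ^ pr v) := by
    have h3 : frobenius (kf v) (pr v) (-(rd v e * rd v s⁻¹)) =
        -(frobenius (kf v) (pr v) (rd v e) * frobenius (kf v) (pr v) (rd v s⁻¹)) := by
      rw [map_neg, map_mul]
    simpa [frobenius_def] using h3
  rw [h2, neg_inj] at h1
  have hne : rd v s⁻¹ ^ pr v ≠ 0 := by
    apply pow_ne_zero
    exact rd_ne_zero hsv' (by rwa [inv_inv]) (inv_ne_zero hs)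
  have h3 : rd v e = rd v e ^ pr v := mul_right_cancel₀ hne h1
  rw [mem_Fx]
  refine ⟨he, ?_⟩
  rw [← rd_of_mem he]
  exact h3.symm

/-- Eigenvectors with rational exponents are algebraic. -/
lemma eigen_algebraic {s : K} {q : ℚ} {y : K⟦X⟧} (hy : th s y = C (q : K) * y) (hy0 : y ≠ 0) :
    IsAlgebraic (Polynomial K) y := by
  set b : ℕ := q.den with hb
  have hb0 : b ≠ 0 := q.den_nz
  set ap : ℕ := q.num.toNat with hap
  set am : ℕ := (-q.num).toNat with ham
  have hnum : (q.num : K) = (ap : K) - (am : K) := by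
    have : q.num = (ap : ℤ) - (am : ℤ) := by omega
    rw [this]
    push_cast
    ring
  have hqb : (b : K) * (q : K) = (ap : K) - (am : K) := by
    rw [← hnum]
    have := Rat.den_mul_eq_num q
    have h2 := congrArg (Rat.cast (K := K)) this
    push_cast at h2
    exact h2
  set A : K⟦X⟧ := y ^ b * (X - C s) ^ am with hA
  set B : K⟦X⟧ := (X - C s) ^ ap with hB
  have hA0 : A ≠ 0 := mul_ne_zero (pow_ne_zero _ hy0) (pow_ne_zero _ (X_sub_ne_zero s))
  have hB0 : B ≠ 0 := pow_ne_zero _ (X_sub_ne_zero s)
  have hyb : th s (y ^ b) = (C ((b : K) * (q : K))) * y ^ b := by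
    rw [th_apply, Derivation.leibniz_pow]
    have h1 : (X - C s) * (b • y ^ (b - 1) • derivative K y) = (b : K⟦X⟧) * y ^ (b - 1) *
        th s y := by
      rw [th_apply, nsmul_eq_mul, smul_eq_mul]
      ring
    rw [h1, hy]
    have h2 : y ^ b = y ^ (b - 1) * y := by
      rw [← pow_succ]
      congr 1
      omega
    rw [h2, map_mul]
    have h3 : (C (b : K) : K⟦X⟧) = (b : K⟦X⟧) := by simp
    rw [h3]
    ring
  have hthA : th s A = C ((ap : K)) * A := by
    rw [hA, th_mul, th_pow, hyb, hqb, map_sub]
    have h3 : (C (am : K) : K⟦X⟧) = (am : K⟦X⟧) := by simp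
    rw [h3]
    ring
  have hthB : th s B = C ((ap : K)) * B := by
    rw [hB, th_pow]
    have h3 : (C (ap : K) : K⟦X⟧) = (ap : K⟦X⟧) := by simp
    rw [h3]
  obtain ⟨c, hc⟩ := const_of_eul hA0 hB0 (by
    apply mul_left_cancel₀ (X_sub_ne_zero s)
    have h1 : ∀ u : K⟦X⟧, (X - C s) * eul u = X * th s u := by
      intro u
      rw [eul, th_apply]
      ring
    calc (X - C s) * (eul A * B) = ((X - C s) * eul A) * B := by ring
      _ = A * ((X - C s) * eul B) := by
          rw [h1, h1, hthA, hthB]
          ring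
      _ = (X - C s) * (A * eul B) := by ring)
  -- the equation
  refine ⟨Polynomial.C ((Polynomial.X - Polynomial.C s) ^ am) * Polynomial.X ^ b -
    Polynomial.C (Polynomial.C c * (Polynomial.X - Polynomial.C s) ^ ap), ?_, ?_⟩
  · intro h0
    have h1 := congrArg (fun P => Polynomial.coeff P b) h0
    simp only [Polynomial.coeff_sub, Polynomial.coeff_C_mul, Polynomial.coeff_X_pow, if_pos,
      Polynomial.coeff_zero, mul_one] at h1
    rw [Polynomial.coeff_C, if_neg hb0, sub_zero] at h1
    exact pow_ne_zero _ (Polynomial.X_sub_C_ne_zero s) h1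
  · rw [map_sub, map_mul, Polynomial.aeval_C, Polynomial.aeval_C, Polynomial.aeval_X_pow]
    have h1 : (algebraMap (Polynomial K) K⟦X⟧) ((Polynomial.X - Polynomial.C s) ^ am) =
        (X - C s) ^ am := by
      have : (algebraMap (Polynomial K) K⟦X⟧) ((Polynomial.X - Polynomial.C s) ^ am) =
        (((Polynomial.X - Polynomial.C s) ^ am : Polynomial K) : K⟦X⟧) := rfl
      rw [this]
      simp
    have h2 : (algebraMap (Polynomial K) K⟦X⟧) (Polynomial.C c *
        (Polynomial.X - Polynomial.C s) ^ ap) = C c * (X - C s) ^ ap := by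
      have : (algebraMap (Polynomial K) K⟦X⟧) (Polynomial.C c *
        (Polynomial.X - Polynomial.C s) ^ ap) = ((Polynomial.C c *
        (Polynomial.X - Polynomial.C s) ^ ap : Polynomial K) : K⟦X⟧) := rfl
      rw [this]
      simp
    rw [h1, h2, ← hB, ← hc, hA]
    ring

/-- No superlinearly integral logarithm. -/
lemma no_log {s : K} {W : K⟦X⟧} (hW : th s W = 1) (hWs : W ∈ sli K) : False := by
  have h1 : ∀ j, s ^ (j + 1) * ((j + 1 : ℕ) * coeff (j + 1) W) = -1 := by
    intro j
    induction j with
    | zero =>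
      have h2 := congrArg (coeff 0) hW
      rw [th_apply, sub_mul, map_sub, coeff_zero_X_mul, coeff_C_mul, coeff_derivative,
        coeff_zero_one] at h2
      push_cast at h2 ⊢
      linear_combination -h2
    | succ j ih =>
      have h2 := congrArg (coeff (j + 1)) hW
      rw [th_apply, sub_mul, map_sub, coeff_succ_X_mul, coeff_C_mul, coeff_derivative,
        coeff_derivative, coeff_one, if_neg (Nat.succ_ne_zero j)] at h2
      push_cast at h2 ih ⊢
      linear_combination ih - s ^ (j + 1) * h2
  obtain ⟨v, hv1, hv2⟩ := ((hWs 1).and (eventually_mem_Sv s)).exists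
  have hp : (pr v).Prime := Fact.out
  have h2 := h1 (pr v - 1)
  have e1 : pr v - 1 + 1 = pr v := Nat.sub_add_cancel hp.one_le
  rw [e1] at h2
  have h3 : s ^ pr v * coeff (pr v) W ∈ Sv v :=
    (Sv v).mul_mem ((Sv v).pow_mem hv2 _) (hv1 _ (by omega))
  have h4 : s ^ pr v * coeff (pr v) W = ((-(1 / (pr v : ℚ)) : ℚ) : K) := by
    have h5 : ((pr v : ℕ) : K) ≠ 0 := Nat.cast_ne_zero.2 hp.ne_zero
    push_cast
    field_simp
    linear_combination h2
  rw [h4, rat_mem_Sv_iff] at h3
  apply h3
  have h6 : (-(1 / (pr v : ℚ)) : ℚ).den = pr v := by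
    rw [Rat.neg_den, one_div, Rat.inv_natCast_den, if_neg hp.ne_zero]
  rw [h6]

/-- **Superlinearly integral solutions of Euler equations are algebraic.** -/
theorem euler_algebraic {s : K} (hs : s ≠ 0) (N : ℕ) : ∀ P : Polynomial K, P.natDegree = N →
    P ≠ 0 → P.Splits → ∀ u ∈ sli K, Polynomial.aeval (th s) P u = 0 →
      IsAlgebraic (Polynomial K) u := by
  induction N with
  | zero =>
    intro P hP hP0 _ u _ hu
    rw [Polynomial.natDegree_eq_zero] at hP
    obtain ⟨c, rfl⟩ := hP
    have hc : c ≠ 0 := by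
      rintro rfl
      exact hP0 (by simp)
    rw [Polynomial.aeval_C, Module.algebraMap_end_apply] at hu
    have : u = 0 := by
      rcases smul_eq_zero.1 hu with h | h
      · exact absurd h hc
      · exact h
    rw [this]
    exact isAlgebraic_zero
  | succ N ih =>
    intro P hP hP0 hPs u hus hu
    obtain ⟨e, he⟩ := hPs.exists_eval_eq_zero (by
      rw [Polynomial.degree_eq_natDegree hP0, hP]
      exact_mod_cast Nat.succ_ne_zero N)
    obtain ⟨Q, hQ⟩ := Polynomial.dvd_iff_isRoot.2 he
    have hQ0 : Q ≠ 0 := by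
      rintro rfl
      rw [mul_zero] at hQ
      exact hP0 hQ
    have hQd : Q.natDegree = N := by
      rw [hQ, Polynomial.natDegree_mul (Polynomial.X_sub_C_ne_zero e) hQ0,
        Polynomial.natDegree_X_sub_C] at hP
      omega
    have hQs : Q.Splits := 
      hPs.of_dvd hP0 ⟨Polynomial.X - Polynomial.C e, by rw [hQ]; ring⟩
    set y := Polynomial.aeval (th s) Q u with hy
    have hyth : th s y = C e * y := by
      rw [hQ, map_mul, Module.End.mul_apply, ← hy, map_sub, Polynomial.aeval_X, Polynomial.aeval_C,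
        LinearMap.sub_apply, Module.algebraMap_end_apply, sub_eq_zero] at hu
      rw [hu, PowerSeries.smul_eq_C_mul]
    have hys : y ∈ sli K := aeval_th_mem_sli s Q hus
    by_cases hy0 : y = 0
    · exact ih Q hQd hQ0 hQs u hus hy0
    obtain ⟨q, hq⟩ := eigen_rational hs hyth hy0 hys
    have hyalg : IsAlgebraic (Polynomial K) y := by
      rw [← hq] at hyth
      exact eigen_algebraic hyth hy0
    have haev : ∀ R : Polynomial K, Polynomial.aeval (th s) R y = C (R.eval e) * y := by
      intro R
      induction R using Polynomial.induction_on' with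
      | add p q hp hq => rw [map_add, LinearMap.add_apply, hp, hq, Polynomial.eval_add, map_add,
          add_mul]
      | monomial n c =>
        have hpow : ∀ n : ℕ, ((th s) ^ n) y = C (e ^ n) * y := by
          intro n
          induction n with
          | zero => simp
          | succ n ihn =>
            rw [pow_succ', Module.End.mul_apply, ihn, th_mul, hyth, pow_succ, map_mul]
            have : th s (C (e ^ n) : K⟦X⟧) = 0 := by
              rw [th_apply]
              simp
            rw [this]
            ring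
        rw [Polynomial.aeval_monomial, Module.End.mul_apply, hpow, Module.algebraMap_end_apply,
          Polynomial.eval_monomial, map_mul, PowerSeries.smul_eq_C_mul]
        ring
    by_cases hQe : Q.eval e = 0
    · exfalso
      obtain ⟨Q2, hQ2⟩ := Polynomial.dvd_iff_isRoot.2 hQe
      set g := Polynomial.aeval (th s) Q2 u with hg
      have hgy : th s g = C e * g + y := by
        rw [hy, hQ2, map_mul, Module.End.mul_apply, ← hg, map_sub, Polynomial.aeval_X,
          Polynomial.aeval_C, LinearMap.sub_apply, Module.algebraMap_end_apply,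
          PowerSeries.smul_eq_C_mul]
        ring
      have hgs : g ∈ sli K := aeval_th_mem_sli s Q2 hus
      have hy00 := coeff_zero_ne hs hyth hy0
      set W : K⟦X⟧ := g * y⁻¹ with hW
      have hcc : constantCoeff y ≠ 0 := by
        rw [← coeff_zero_eq_constantCoeff_apply]
        exact hy00
      have hWy : W * y = g := by
        rw [hW, mul_assoc, PowerSeries.inv_mul_cancel y hcc, mul_one]
      have hWs : W ∈ sli K := of_mul_mem_sli hys hy00 (by rw [hWy]; exact hgs)
      refine no_log (s := s) ?_ hWs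
      have h1 := congrArg (th s) hWy
      rw [th_mul, hyth, hgy, ← hWy] at h1
      have h2 : y * th s W = y * 1 := by linear_combination h1
      exact mul_left_cancel₀ hy0 h2
    · set u' := u - C (Q.eval e)⁻¹ * y with hu'
      have h1 : Polynomial.aeval (th s) Q u' = 0 := by
        rw [hu', map_sub, ← hy, ← PowerSeries.smul_eq_C_mul, LinearMap.map_smul, haev,
          PowerSeries.smul_eq_C_mul, ← mul_assoc, ← map_mul, inv_mul_cancel₀ hQe, map_one, one_mul,
          sub_self]
      have h2 : IsAlgebraic (Polynomial K) u' :=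
        ih Q hQd hQ0 hQs u' ((sli K).sub_mem hus ((sli K).mul_mem (C_mem_sli _) hys)) h1
      have h3 : u = u' + C (Q.eval e)⁻¹ * y := by
        rw [hu']
        ring
      rw [h3]
      refine h2.add (IsAlgebraic.mul ?_ hyalg)
      have h4 : (C (Q.eval e)⁻¹ : K⟦X⟧) =
          algebraMap (Polynomial K) K⟦X⟧ (Polynomial.C (Q.eval e)⁻¹) := by
        have : algebraMap (Polynomial K) K⟦X⟧ (Polynomial.C (Q.eval e)⁻¹) =
          ((Polynomial.C (Q.eval e)⁻¹ : Polynomial K) : K⟦X⟧) := rfl
        rw [this, Polynomial.coe_C]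
      rw [h4]
      exact isAlgebraic_algebraMap _

end Pool.Agent.W_b91de3_h49
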