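import Pool.Agent.W_b91de3_h49.Arith
import Pool.Agent.W_b91de3_h49.Arch

set_option autoImplicit false

/-! # The Hankel determinants vanish -/

noncomputable section

open Finset Filter N27ec9e13

namespace Pool.Agent.W_b91de3_h49

/-- the growth of `ω` bounds the primes in the denominators -/
lemma primes_bound {ρ : ℝ} (hρ : 0 < ρ) {ω : Nat.Primes → ℤ}
    (hω : Tendsto (fun p : Nat.Primes => (ω p : ℝ) / (p : ℝ) ^ ρ)
      (comap (fun p : Nat.Primes => (p : ℕ)) atTop) atTop)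
    {a : ℕ → ℚ} (hint : omegaIntegral ω a) {M : ℝ} (hM : 0 < M) :
    ∃ m0 : ℕ, ∀ m, m0 ≤ m → 1 ≤ (2 * m / M) ^ (1 / ρ) ∧
      ∀ k, k < 2 * m → ∀ p : ℕ, p.Prime → p ∣ (a k).den → p ≤ ⌊(2 * m / M) ^ (1 / ρ)⌋₊ := by
  have h1 : ∀ᶠ p : Nat.Primes in comap (fun p : Nat.Primes => (p : ℕ)) atTop,
      M ≤ (ω p : ℝ) / (p : ℝ) ^ ρ := hω.eventually_ge_atTop M
  rw [eventually_comap, eventually_atTop] at h1
  obtain ⟨p0, hp0⟩ := h1
  have h2 : Tendsto (fun m : ℕ => (2 * (m : ℝ) / M) ^ (1 / ρ)) atTop atTop := by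
    have h3 : Tendsto (fun m : ℕ => 2 * (m : ℝ) / M) atTop atTop := by
      refine Tendsto.atTop_div_const hM ?_
      exact Tendsto.const_mul_atTop (by norm_num) tendsto_natCast_atTop_atTop
    exact (tendsto_rpow_atTop (by positivity)).comp h3
  obtain ⟨m0, hm0⟩ := eventually_atTop.mp (h2.eventually_ge_atTop ((p0 : ℝ) + 1))
  refine ⟨m0, fun m hm => ?_⟩
  have h4 := hm0 m hm
  have hp0' : (0 : ℝ) ≤ p0 := Nat.cast_nonneg p0
  refine ⟨by linarith, fun k hk p hp hpd => ?_⟩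
  by_contra hlt
  rw [not_le] at hlt
  have h5 : (2 * (m : ℝ) / M) ^ (1 / ρ) < p := (Nat.floor_lt (by positivity)).mp hlt
  have h6 : p0 ≤ p := by
    have : (p0 : ℝ) ≤ p := by linarith
    exact_mod_cast this
  have h7 := hp0 p h6 ⟨p, hp⟩ rfl
  have hpp : (0 : ℝ) < p := by exact_mod_cast hp.pos
  have h8 : M * (p : ℝ) ^ ρ ≤ ω ⟨p, hp⟩ := by
    rw [le_div_iff₀ (by positivity)] at h7
    exact h7
  have h9 : 2 * (m : ℝ) / M < (p : ℝ) ^ ρ := by
    have h10 := Real.rpow_lt_rpow (by positivity) h5 hρ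
    rwa [← Real.rpow_mul (by positivity), one_div, inv_mul_cancel₀ hρ.ne', Real.rpow_one] at h10
  have h11 : 2 * (m : ℝ) < ω ⟨p, hp⟩ := by
    rw [div_lt_iff₀ hM] at h9
    linarith
  have h12 : (k : ℤ) ≤ ω ⟨p, hp⟩ := by
    have h13 : ((2 * m : ℕ) : ℤ) < ω ⟨p, hp⟩ := by
      have : (((2 * m : ℕ) : ℤ) : ℝ) < ω ⟨p, hp⟩ := by
        push_cast
        exact h11
      exact_mod_cast this
    omega
  have h14 := hint ⟨p, hp⟩ k h12
  have h15 : p ∣ 1 := by
    rw [← h14]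
    exact Nat.dvd_gcd hpd dvd_rfl
  exact hp.one_lt.ne' (Nat.dvd_one.mp h15)

/-- `∏_{i < m} i! ≥ m ^ (m (m - 1) / 2) * e ^ (- m ^ 2)` -/
lemma log_prod_factorial (m : ℕ) (hm : 1 ≤ m) :
    (m * (m - 1) : ℝ) * Real.log m - 2 * m ^ 2 ≤ 2 * ∑ i ∈ range m, Real.log i.factorial := by
  have hm' : (0 : ℝ) < m := by exact_mod_cast hm
  have h1 : ∀ i ∈ range m, (i : ℝ) * Real.log m - m ≤ Real.log i.factorial := by
    intro i _
    have h2 := Real.pow_div_factorial_le_exp (m : ℝ) hm'.le i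
    have hf : (0 : ℝ) < i.factorial := by exact_mod_cast Nat.factorial_pos i
    rw [div_le_iff₀ hf] at h2
    have h3 := Real.log_le_log (by positivity) h2
    rw [Real.log_pow, Real.log_mul (Real.exp_ne_zero _) hf.ne', Real.log_exp] at h3
    linarith
  have h4 := sum_le_sum h1
  rw [sum_sub_distrib, ← sum_mul, sum_const, card_range, nsmul_eq_mul] at h4
  have h5 : (∑ i ∈ range m, (i : ℝ)) * 2 = m * (m - 1) := by
    have := Finset.sum_range_id_mul_two m
    have h6 := congrArg (Nat.cast (R := ℝ)) this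
    push_cast [Nat.cast_sub hm] at h6
    exact h6
  have h7 : (∑ i ∈ range m, (i : ℝ)) = m * (m - 1) / 2 := by linarith
  rw [h7] at h4
  nlinarith

lemma log_prod_gam {D σ : ℝ} (hD : 0 < D) (m : ℕ) (hm : 1 ≤ m) :
    2 * Real.log (∏ i ∈ range m, gam D σ i) =
      (m * (m - 1) : ℝ) * Real.log D - σ * (2 * ∑ i ∈ range m, Real.log i.factorial) := by
  rw [Real.log_prod]
  · have h1 : ∀ i ∈ range m, Real.log (gam D σ i) =
        (i : ℝ) * Real.log D - σ * Real.log i.factorial := by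
      intro i _
      have hf : (0 : ℝ) < i.factorial := by exact_mod_cast Nat.factorial_pos i
      rw [gam, Real.log_div (by positivity) (by positivity), Real.log_pow, Real.log_rpow hf]
    rw [sum_congr rfl h1, sum_sub_distrib, ← sum_mul, ← mul_sum]
    have h5 : (∑ i ∈ range m, (i : ℝ)) * 2 = m * (m - 1) := by
      have := Finset.sum_range_id_mul_two m
      have h6 := congrArg (Nat.cast (R := ℝ)) this
      push_cast [Nat.cast_sub hm] at h6
      exact h6
    rw [← h5]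
    ring
  · intro i _
    have hf : (0 : ℝ) < i.factorial := by exact_mod_cast Nat.factorial_pos i
    unfold gam
    positivity

lemma gam_pos {D : ℝ} (hD : 0 < D) (σ : ℝ) (i : ℕ) : 0 < gam D σ i := by
  have hf : (0 : ℝ) < i.factorial := by exact_mod_cast Nat.factorial_pos i
  unfold gam
  positivity

theorem hankel_eventually_zero (a : ℕ → ℚ) {N : ℕ} (hN : N ≠ 0)
    (ha : ∀ k, (N : ℚ) ^ (k + 1) * (k.factorial * a k) ∈ Zr) {ρ : ℝ} (hρ : 0 < ρ)
    {ω : Nat.Primes → ℤ} (hω : Tendsto (fun p : Nat.Primes => (ω p : ℝ) / (p : ℝ) ^ ρ)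
      (comap (fun p : Nat.Primes => (p : ℕ)) atTop) atTop)
    (hint : omegaIntegral ω a) (b : ℕ → ℂ) (hb0 : b 0 ≠ 0) {A C : ℝ} (hA : 0 < A) (hC : 0 < C)
    (hb : ∀ k, ‖b k‖ ≤ A * gam C (1 / ρ) k)
    (hc : ∀ k, ‖CC (fun k => (a k : ℂ)) b k‖ ≤ A * gam C (1 / ρ) k) :
    ∃ m0 : ℕ, ∀ m, m0 ≤ m → (hank a m).det = 0 := by
  set σ : ℝ := 1 / ρ with hσ
  have hσ0 : 0 < σ := by positivity
  have hD : 0 < C * 2 ^ σ := by positivity
  set C0 : ℝ := 2 * Real.log 4 + 4 with hC0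
  -- the constant
  set K0 : ℝ := Real.log N + |σ * Real.log 2 + C0 + Real.log (C * 2 ^ σ)| + 2 * σ + 1 +
    2 * A ^ 2 + 2 * |Real.log ‖b 0‖| with hK0
  have hN1 : (1 : ℝ) ≤ N := by exact_mod_cast Nat.pos_of_ne_zero hN
  have hlogN : 0 ≤ Real.log N := Real.log_nonneg hN1
  have hK0pos : 0 < K0 := by positivity
  set M : ℝ := Real.exp (2 * (K0 + 1) / σ) with hM
  have hM0 : 0 < M := Real.exp_pos _
  have hlogM : σ * Real.log M = 2 * (K0 + 1) := by
    rw [hM, Real.log_exp]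
    field_simp
  obtain ⟨m0, hm0⟩ := primes_bound hρ hω hint hM0
  refine ⟨max m0 2, fun m hm => ?_⟩
  have hm1 : m0 ≤ m := le_trans (le_max_left _ _) hm
  have hm2 : 2 ≤ m := le_trans (le_max_right _ _) hm
  obtain ⟨hY1, hY2⟩ := hm0 m hm1
  set Y : ℕ := ⌊(2 * m / M) ^ σ⌋₊ with hY
  have hY0 : Y ≠ 0 := by
    have : 1 ≤ Y := by
      rw [hY, Nat.one_le_floor_iff]
      exact hY1
    omega
  have hmR : (2 : ℝ) ≤ m := by exact_mod_cast hm2
  by_contra hdet
  -- the lower bound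
  have h1 := det_mem_Zr a hN Y m ha hY2
  set W : ℕ := m * (m - 1) with hW
  set DD : ℕ := N ^ (m ^ 2) * smp Y (W.factorial) with hDD
  have hDD0 : DD ≠ 0 := mul_ne_zero (pow_ne_zero _ hN) (smp_pos Y _).ne'
  obtain ⟨z, hz⟩ := mem_Zr.mp h1
  have hz0 : z ≠ 0 := by
    rintro rfl
    rw [Int.cast_zero] at hz
    rcases mul_eq_zero.mp hz with h | h
    · exact hDD0 (by exact_mod_cast h)
    · exact hdet h
  have h2 : (1 : ℝ) ≤ DD * ‖(hank (fun k => (a k : ℂ)) m).det‖ := by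
    have h3 : (hank (fun k => (a k : ℂ)) m).det = (((hank a m).det : ℚ) : ℂ) := by
      have := (Rat.castHom ℂ).map_det (hank a m)
      rw [Rat.coe_castHom] at this
      rw [this]
      rfl
    have h4 : (DD : ℝ) * ‖(hank (fun k => (a k : ℂ)) m).det‖ = ‖(z : ℂ)‖ := by
      rw [h3]
      have h5 : ((DD : ℚ) : ℂ) * (((hank a m).det : ℚ) : ℂ) = ((z : ℚ) : ℂ) := by
        rw [← Rat.cast_mul, hz]
      have h6 := congrArg norm h5
      rw [norm_mul] at h6
      simpa using h6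
    rw [h4, Complex.norm_intCast]
    exact_mod_cast Int.one_le_abs hz0
  have h3 := arch_bound (fun k => (a k : ℂ)) b hA.le hC.le hσ0.le hb hc m
  set H : ℝ := ‖(hank (fun k => (a k : ℂ)) m).det‖ with hH
  have hDDpos : (0 : ℝ) < DD := by exact_mod_cast Nat.pos_of_ne_zero hDD0
  have hHpos : 0 < H := by
    by_contra hneg
    have : H ≤ 0 := not_lt.mp hneg
    nlinarith
  have hb0' : 0 < ‖b 0‖ := norm_pos_iff.mpr hb0
  -- logarithms
  have hL1 : 0 ≤ Real.log DD + Real.log H := by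
    rw [← Real.log_mul hDDpos.ne' hHpos.ne']
    exact Real.log_nonneg h2
  have hL2 : Real.log DD ≤ m ^ 2 * Real.log N + W * (Real.log Y + C0) := by
    rw [hDD, Nat.cast_mul, Nat.cast_pow, Real.log_mul (by positivity)
      (by exact_mod_cast (smp_pos Y _).ne'), Real.log_pow]
    have := log_smp_le hY0 W
    push_cast
    linarith
  have hL3 : Real.log Y ≤ σ * (Real.log 2 + Real.log m - Real.log M) := by
    have h4 : (Y : ℝ) ≤ (2 * m / M) ^ σ := Nat.floor_le (by positivity)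
    have h5 := Real.log_le_log (by exact_mod_cast Nat.pos_of_ne_zero hY0) h4
    rw [Real.log_rpow (by positivity), Real.log_div (by positivity) hM0.ne',
      Real.log_mul (by norm_num) (by positivity)] at h5
    exact h5
  have hprodpos : 0 < ∏ i ∈ range m, gam (C * 2 ^ σ) σ i := prod_pos fun i _ => gam_pos hD σ i
  have hfacpos : (0 : ℝ) < m.factorial := by exact_mod_cast Nat.factorial_pos m
  have hL4 : 2 * m * Real.log ‖b 0‖ + Real.log H ≤ Real.log m.factorial +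
      (m * Real.log (2 * m * A ^ 2) + 2 * Real.log (∏ i ∈ range m, gam (C * 2 ^ σ) σ i)) := by
    have h4 := Real.log_le_log (by positivity) h3
    rw [Real.log_mul (by positivity) hHpos.ne', Real.log_mul hfacpos.ne' (by positivity),
      Real.log_mul (by positivity) (by positivity), Real.log_pow, Real.log_pow, Real.log_pow] at h4
    push_cast at h4
    exact h4
  have hL5 : Real.log m.factorial ≤ m * Real.log m := by
    rw [← Real.log_pow]
    refine Real.log_le_log hfacpos ?_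
    exact_mod_cast Nat.factorial_le_pow m
  have hL6 := log_prod_gam (σ := σ) hD m (by omega)
  have hL7 := log_prod_factorial m (by omega)
  have hWR : (W : ℝ) = m * (m - 1) := by
    rw [hW, Nat.cast_mul, Nat.cast_sub (by omega), Nat.cast_one]
  -- elementary bounds
  have hE1 : Real.log m ≤ m := (Real.log_le_sub_one_of_pos (by linarith)).trans (by linarith)
  have hE2 : Real.log (2 * m * A ^ 2) ≤ 2 * m * A ^ 2 :=
    (Real.log_le_sub_one_of_pos (by positivity)).trans (by linarith)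
  have hE3 : -(2 * m * Real.log ‖b 0‖) ≤ 2 * |Real.log ‖b 0‖| * m ^ 2 := by
    have h4 := neg_abs_le (Real.log ‖b 0‖)
    have h5 : 0 ≤ |Real.log ‖b 0‖| := abs_nonneg _
    have h6 : |Real.log ‖b 0‖| * m ≤ |Real.log ‖b 0‖| * m ^ 2 := by
      gcongr
      nlinarith
    nlinarith
  have hWpos : (0 : ℝ) ≤ W := Nat.cast_nonneg W
  have hWle : (W : ℝ) ≤ m ^ 2 := by
    rw [hWR]
    nlinarith
  have hWge : (m : ℝ) ^ 2 / 2 ≤ W := by
    rw [hWR]
    nlinarith
  have hE4 : W * (σ * Real.log 2 + C0 + Real.log (C * 2 ^ σ)) ≤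
      |σ * Real.log 2 + C0 + Real.log (C * 2 ^ σ)| * m ^ 2 := by
    calc W * (σ * Real.log 2 + C0 + Real.log (C * 2 ^ σ)) ≤
        W * |σ * Real.log 2 + C0 + Real.log (C * 2 ^ σ)| := by
          gcongr
          exact le_abs_self _
      _ ≤ m ^ 2 * |σ * Real.log 2 + C0 + Real.log (C * 2 ^ σ)| := by gcongr
      _ = _ := by ring
  -- everything together
  have hF1 : 0 ≤ m ^ 2 * Real.log N + W * (σ * (Real.log 2 + Real.log m - Real.log M) + C0) +
      (m * Real.log m + m * (2 * m * A ^ 2)) + (W * Real.log (C * 2 ^ σ) -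
        σ * (W * Real.log m - 2 * m ^ 2)) + 2 * |Real.log ‖b 0‖| * m ^ 2 := by
    have h4 : (W : ℝ) * (Real.log Y + C0) ≤
        W * (σ * (Real.log 2 + Real.log m - Real.log M) + C0) := by gcongr
    have h5 : (m : ℝ) * Real.log (2 * m * A ^ 2) ≤ m * (2 * m * A ^ 2) := by gcongr
    have h6 : σ * (W * Real.log m - 2 * m ^ 2) ≤
        σ * (2 * ∑ i ∈ range m, Real.log i.factorial) := by
      rw [hWR]
      gcongr
    rw [← hWR] at hL6
    linarith
  have hF2 : (m : ℝ) * Real.log m ≤ m ^ 2 := by nlinarith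
  have hF3 : 0 ≤ K0 * m ^ 2 - W * (σ * Real.log M) := by
    have e1 : m ^ 2 * Real.log N + W * (σ * (Real.log 2 + Real.log m - Real.log M) + C0) +
      (m * Real.log m + m * (2 * m * A ^ 2)) + (W * Real.log (C * 2 ^ σ) -
        σ * (W * Real.log m - 2 * m ^ 2)) + 2 * |Real.log ‖b 0‖| * m ^ 2 =
        m ^ 2 * Real.log N + W * (σ * Real.log 2 + C0 + Real.log (C * 2 ^ σ)) +
        m * Real.log m + 2 * A ^ 2 * m ^ 2 + 2 * σ * m ^ 2 +
        2 * |Real.log ‖b 0‖| * m ^ 2 - W * (σ * Real.log M) := by ring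
    rw [e1] at hF1
    rw [hK0]
    nlinarith
  rw [hlogM] at hF3
  have hF4 : (m : ℝ) ^ 2 / 2 * (2 * (K0 + 1)) ≤ W * (2 * (K0 + 1)) := by gcongr
  nlinarith

end Pool.Agent.W_b91de3_h49
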