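import Mathlib

set_option autoImplicit false

/-! # Linear differential operators on polynomials in characteristic `p` -/

noncomputable section

open Polynomial Finset

namespace Pool.Agent.W_b91de3_h49

/-- The operator `∑ i ≤ n, a i D ^ i` on polynomials. -/
def Lop {R : Type*} [CommRing R] (n : ℕ) (a : ℕ → R[X]) : R[X] →ₗ[R] R[X] where
  toFun g := ∑ i ∈ range (n + 1), a i * derivative^[i] g
  map_add' g h := by
    rw [← sum_add_distrib]
    refine sum_congr rfl fun i _ => ?_
    rw [iterate_map_add, mul_add]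
  map_smul' c g := by
    rw [RingHom.id_apply, smul_sum]
    refine sum_congr rfl fun i _ => ?_
    rw [iterate_derivative_smul, mul_smul_comm]

lemma Lop_apply {R : Type*} [CommRing R] (n : ℕ) (a : ℕ → R[X]) (g : R[X]) :
    Lop n a g = ∑ i ∈ range (n + 1), a i * derivative^[i] g := rfl

lemma iterate_derivative_const_mul {R : Type*} [CommRing R] {w : R[X]} (hw : derivative w = 0)
    (g : R[X]) (i : ℕ) : derivative^[i] (w * g) = w * derivative^[i] g := by
  induction i with
  | zero => rfl
  | succ i ih =>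
    rw [Function.iterate_succ_apply', Function.iterate_succ_apply', ih, derivative_mul, hw,
      zero_mul, zero_add]

lemma Lop_mul {R : Type*} [CommRing R] (n : ℕ) (a : ℕ → R[X]) {w : R[X]}
    (hw : derivative w = 0) (g : R[X]) : Lop n a (w * g) = w * Lop n a g := by
  rw [Lop_apply, Lop_apply, mul_sum]
  refine sum_congr rfl fun i _ => ?_
  rw [iterate_derivative_const_mul hw]
  ring

lemma degree_Lop_lt {R : Type*} [CommRing R] (n : ℕ) (a : ℕ → R[X]) {δ k : ℕ}
    (ha : ∀ i ≤ n, (a i).natDegree ≤ i + δ) {g : R[X]} (hg : g.degree < k) :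
    (Lop n a g).degree < (k + δ : ℕ) := by
  rw [degree_lt_iff_coeff_zero] at hg ⊢
  intro m hm
  rw [Lop_apply, finsetSum_coeff]
  refine sum_eq_zero fun i hi => ?_
  rw [mem_range] at hi
  rw [coeff_mul]
  refine sum_eq_zero fun x hx => ?_
  rw [HasAntidiagonal.mem_antidiagonal] at hx
  by_cases h1 : (a i).natDegree < x.1
  · rw [coeff_eq_zero_of_natDegree_lt h1, zero_mul]
  · have h2 := ha i (by omega)
    rw [coeff_iterate_derivative, hg (x.2 + i) (by omega), smul_zero, mul_zero]

variable {K : Type*} [Field K]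

/-- **Norm lemma.** If `Lop F` is divisible by a high power of `X ^ p` and `F` is not, then the
operator has a nonzero polynomial solution. -/
theorem exists_kernel_of_dvd (p : ℕ) [Fact p.Prime] [CharP K p] (n : ℕ) (a : ℕ → K[X]) {δ : ℕ}
    (ha : ∀ i ≤ n, (a i).natDegree ≤ i + δ) (F : K[X]) {o : ℕ} (ho : o < p)
    (hF : F.coeff o ≠ 0) (hdvd : X ^ (p * (δ + 1)) ∣ Lop n a F) :
    ∃ g : K[X], g ≠ 0 ∧ Lop n a g = 0 := by
  classical
  have hp : p.Prime := Fact.out
  obtain ⟨h, hh⟩ := hdvd
  have hdX : ∀ j, derivative ((X : K[X]) ^ (p * j)) = 0 := by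
    intro j
    rw [derivative_X_pow]
    have : ((p * j : ℕ) : K) = 0 := by rw [Nat.cast_mul, CharP.cast_eq_zero, zero_mul]
    rw [this, C_0, zero_mul]
  -- the linear map
  set k : ℕ := p * δ + h.natDegree + 1 with hk
  let P : (Fin k → K) →ₗ[K] K[X] :=
    (degreeLT K k).subtype ∘ₗ (degreeLTEquiv K k).symm.toLinearMap
  let S : (Fin (δ + 1) → K) →ₗ[K] K[X] :=
    ∑ j : Fin (δ + 1), (LinearMap.proj j).smulRight (X ^ (p * (j : ℕ)) * h)
  let T : K[X] →ₗ[K] (Fin (k + δ) → K) := LinearMap.pi fun m => lcoeff K m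
  let Φ : ((Fin k → K) × (Fin (δ + 1) → K)) →ₗ[K] (Fin (k + δ) → K) :=
    T ∘ₗ ((Lop n a) ∘ₗ P ∘ₗ LinearMap.fst K _ _ - S ∘ₗ LinearMap.snd K _ _)
  have hker : LinearMap.ker Φ ≠ ⊥ := by
    apply LinearMap.ker_ne_bot_of_finrank_lt
    rw [Module.finrank_prod, Module.finrank_fin_fun, Module.finrank_fin_fun,
      Module.finrank_fin_fun]
    omega
  obtain ⟨⟨v, c⟩, hvc, hne⟩ := Submodule.exists_mem_ne_zero_of_ne_bot hker
  have hS : ∀ c, S c = ∑ j : Fin (δ + 1), c j • (X ^ (p * (j : ℕ)) * h) := by
    intro c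
    simp [S]
  have hPdeg : (P v).degree < k := by
    have := ((degreeLTEquiv K k).symm v).2
    rw [mem_degreeLT] at this
    exact this
  have heq : Lop n a (P v) = ∑ j : Fin (δ + 1), c j • (X ^ (p * (j : ℕ)) * h) := by
    rw [← sub_eq_zero]
    have hdeg : (Lop n a (P v) - ∑ j : Fin (δ + 1), c j • (X ^ (p * (j : ℕ)) * h)).degree <
        (k + δ : ℕ) := by
      refine lt_of_le_of_lt (degree_sub_le _ _) (max_lt (degree_Lop_lt n a ha hPdeg) ?_)
      rw [← mem_degreeLT]
      refine Submodule.sum_mem _ fun j _ => Submodule.smul_mem _ _ ?_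
      rw [mem_degreeLT]
      by_cases hh0 : h = 0
      · rw [hh0, mul_zero, degree_zero]
        exact WithBot.bot_lt_coe _
      · rw [← natDegree_lt_iff_degree_lt (mul_ne_zero (pow_ne_zero _ X_ne_zero) hh0),
          natDegree_mul (pow_ne_zero _ X_ne_zero) hh0, natDegree_X_pow]
        have h1 : p * (j : ℕ) ≤ p * δ := Nat.mul_le_mul_left _ (by have := j.2; omega)
        omega
    rw [degree_lt_iff_coeff_zero] at hdeg
    ext m
    rw [coeff_zero]
    by_cases hm : m < k + δ
    · rw [LinearMap.mem_ker] at hvc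
      have h1 := congrFun hvc ⟨m, hm⟩
      rw [← hS c]
      exact h1
    · exact hdeg m (by omega)
  by_cases hc : c = 0
  · refine ⟨P v, ?_, ?_⟩
    · intro h0
      apply hne
      have h1 : (degreeLTEquiv K k).symm v = 0 := Subtype.ext h0
      have h2 : v = 0 := by simpa using h1
      rw [h2, hc]
      rfl
    · rw [heq, hc]
      simp
  · -- the first nonzero coefficient
    have hex : ∃ j : ℕ, ∃ hj : j < δ + 1, c ⟨j, hj⟩ ≠ 0 := by
      by_contra hall
      push Not at hall
      exact hc (funext fun j => hall j j.2)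
    set j0 := Nat.find hex with hj0
    obtain ⟨hj0δ, hcj0⟩ := Nat.find_spec hex
    have hmin : ∀ j : Fin (δ + 1), (j : ℕ) < j0 → c j = 0 := by
      intro j hj
      have := Nat.find_min hex hj
      push Not at this
      exact this j.2
    -- the unit
    set u : K[X] := ∑ j : Fin (δ + 1), c j • X ^ (p * ((j : ℕ) - j0)) with hu
    have hdu : derivative u = 0 := by
      rw [hu, derivative_sum]
      refine sum_eq_zero fun j _ => ?_
      rw [derivative_smul, hdX, smul_zero]
    have hu0 : u.coeff 0 ≠ 0 := by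
      rw [hu, finsetSum_coeff, sum_eq_single ⟨j0, hj0δ⟩]
      · have h1 : c ⟨j0, hj0δ⟩ ≠ 0 := hcj0
        rw [coeff_smul, coeff_X_pow, if_pos (by simp), smul_eq_mul, mul_one]
        exact h1
      · intro j _ hj
        rw [coeff_smul, coeff_X_pow]
        by_cases hj' : (j : ℕ) < j0
        · rw [hmin j hj', zero_smul]
        · rw [if_neg, smul_zero]
          have h1 : (j : ℕ) ≠ j0 := fun h => hj (Fin.ext h)
          have h2 : 0 < p * ((j : ℕ) - j0) := Nat.mul_pos hp.pos (by omega)
          omega
      · intro h1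
        exact absurd (mem_univ _) h1
    have hui : ∀ i, 0 < i → i < p → u.coeff i = 0 := by
      intro i hi hip
      rw [hu, finsetSum_coeff]
      refine sum_eq_zero fun j _ => ?_
      rw [coeff_smul, coeff_X_pow, if_neg, smul_zero]
      intro h1
      have h2 : p ∣ i := ⟨_, h1⟩
      exact absurd (Nat.le_of_dvd hi h2) (by omega)
    have hLu : Lop n a (P v) = X ^ (p * j0) * u * h := by
      rw [heq, hu, mul_sum, sum_mul]
      refine sum_congr rfl fun j _ => ?_
      by_cases hj : (j : ℕ) < j0
      · rw [hmin j hj]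
        simp
      · rw [mul_smul_comm, smul_mul_assoc, ← pow_add, ← mul_add]
        congr 3
        congr 1
        omega
    have hexp : p * (δ + 1) = p * j0 + p * (δ + 1 - j0) := by
      rw [← mul_add]
      congr 1
      omega
    refine ⟨u * F - X ^ (p * (δ + 1 - j0)) * P v, ?_, ?_⟩
    · intro h0
      have h1 := congrArg (fun q => q.coeff o) h0
      have h2 : (u * F).coeff o = u.coeff 0 * F.coeff o := by
        rw [coeff_mul, sum_eq_single (0, o)]
        · intro x hx hx'
          rw [HasAntidiagonal.mem_antidiagonal] at hx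
          have h3 : x.1 ≠ 0 := by
            intro h4
            apply hx'
            ext
            · exact h4
            · have : x.2 = o := by omega
              exact this
          rw [hui x.1 (by omega) (by omega), zero_mul]
        · intro h3
          exact absurd (HasAntidiagonal.mem_antidiagonal.mpr (by simp)) h3
      have h3 : (X ^ (p * (δ + 1 - j0)) * P v).coeff o = 0 := by
        rw [coeff_X_pow_mul', if_neg]
        have h4 : p * 1 ≤ p * (δ + 1 - j0) := Nat.mul_le_mul_left _ (by omega)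
        omega
      simp only [coeff_sub, coeff_zero] at h1
      rw [h2, h3, sub_zero] at h1
      exact mul_ne_zero hu0 hF h1
    · rw [map_sub, Lop_mul n a hdu, Lop_mul n a (hdX _), hh, hLu, hexp, pow_add]
      ring

end Pool.Agent.W_b91de3_h49
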