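import Pool.Agent.W_b91de3_h49.LinOp

set_option autoImplicit false

/-! # Rank counting for linear differential operators in characteristic `p` -/

noncomputable section

open Polynomial Finset

namespace Pool.Agent.W_b91de3_h49

variable {K : Type*} [Field K]

/-- Polynomials with distinct degrees are linearly independent. -/
lemma eq_zero_of_sum_smul {ι : Type*} [Fintype ι] (q : ι → K[X]) (hq0 : ∀ i, q i ≠ 0)
    (hinj : Function.Injective fun i => (q i).natDegree) (c : ι → K)
    (h : ∑ i, c i • q i = 0) : c = 0 := by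
  classical
  by_contra hc
  have hne : (univ.filter fun i => c i ≠ 0).Nonempty := by
    obtain ⟨i, hi⟩ := Function.ne_iff.mp hc
    exact ⟨i, by simpa using hi⟩
  obtain ⟨i, hi, hmax⟩ := exists_max_image _ (fun i => (q i).natDegree) hne
  rw [mem_filter] at hi
  have h1 := congrArg (fun P => P.coeff (q i).natDegree) h
  simp only [finsetSum_coeff, coeff_smul, coeff_zero, smul_eq_mul] at h1
  rw [sum_eq_single i] at h1
  · rcases mul_eq_zero.mp h1 with h2 | h2
    · exact hi.2 h2
    · exact hq0 i (leadingCoeff_eq_zero.mp h2)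
  · intro j _ hj
    by_cases hcj : c j = 0
    · rw [hcj, zero_mul]
    · have h2 := hmax j (by simpa using hcj)
      have h3 : (q j).natDegree ≠ (q i).natDegree := fun h => hj (hinj h)
      rw [coeff_eq_zero_of_natDegree_lt (by omega), mul_zero]
  · intro h2
    exact absurd (mem_univ _) h2

/-- The dimension is at most the number of the degrees. -/
lemma finrank_le_card (N : Submodule K K[X]) (D : Finset ℕ)
    (hD : ∀ g ∈ N, g ≠ 0 → g.natDegree ∈ D) : Module.finrank K N ≤ D.card := by
  classical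
  let T : N →ₗ[K] (D → K) := LinearMap.pi fun m => (lcoeff K (m : ℕ)) ∘ₗ N.subtype
  have hT : Function.Injective T := by
    rw [← LinearMap.ker_eq_bot, LinearMap.ker_eq_bot']
    intro g hg
    by_contra hne
    have hne' : (g : K[X]) ≠ 0 := fun h => hne (Subtype.ext h)
    have h1 := congrFun hg ⟨_, hD g g.2 hne'⟩
    exact hne' (leadingCoeff_eq_zero.mp h1)
  have := LinearMap.finrank_le_finrank_of_injective hT
  rwa [Module.finrank_fintype_fun_eq_card, Fintype.card_coe] at this

lemma card_filter_mod_le (p : ℕ) (C : Finset ℕ) (M : ℕ) :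
    ((range (p * M)).filter fun d => d % p ∈ C).card ≤ C.card * M := by
  classical
  induction M with
  | zero => simp
  | succ M ih =>
    have h1 : (range (p * (M + 1))).filter (fun d => d % p ∈ C) ⊆
        (range (p * M)).filter (fun d => d % p ∈ C) ∪
          C.image (fun j => p * M + j) := by
      intro d hd
      rw [mem_filter, mem_range] at hd
      rw [mem_union, mem_filter, mem_range, mem_image]
      by_cases h2 : d < p * M
      · exact Or.inl ⟨h2, hd.2⟩
      · right
        refine ⟨d % p, hd.2, ?_⟩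
        have h3 : d / p = M := by
          refine Nat.div_eq_of_lt_le ?_ ?_
          · rw [mul_comm]; omega
          · rw [mul_comm]; exact hd.1
        have h4 := Nat.div_add_mod d p
        rw [h3] at h4
        exact h4
    calc _ ≤ _ := card_le_card h1
      _ ≤ _ := card_union_le _ _
      _ ≤ C.card * M + C.card := add_le_add ih card_image_le
      _ = C.card * (M + 1) := by ring

open Classical in
/-- the residue classes modulo `p` of the degrees of the elements -/
def cls (p : ℕ) (N : Set K[X]) : Finset ℕ :=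
  (range p).filter fun j => ∃ g ∈ N, g ≠ 0 ∧ g.natDegree % p = j

lemma mem_cls {p : ℕ} {N : Set K[X]} {j : ℕ} :
    j ∈ cls p N ↔ j < p ∧ ∃ g ∈ N, g ≠ 0 ∧ g.natDegree % p = j := by
  simp only [cls, mem_filter, mem_range]

lemma mod_mem_cls {p : ℕ} (hp : 0 < p) {N : Set K[X]} {g : K[X]} (hg : g ∈ N) (h0 : g ≠ 0) :
    g.natDegree % p ∈ cls p N :=
  mem_cls.mpr ⟨Nat.mod_lt _ hp, g, hg, h0, rfl⟩

/-- the `X ^ p`-saturation of the range -/
def satr (p : ℕ) (L : K[X] →ₗ[K] K[X]) : Set K[X] :=
  {h | ∃ e : ℕ, ∃ F, L F = X ^ (p * e) * h}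

/-- Distinct residue classes give independent families. -/
lemma indep_of_cls {p M : ℕ} (hp : 0 < p) {C : Finset ℕ} (ρ : C → K[X]) (h0 : ∀ j, ρ j ≠ 0)
    (hdeg : ∀ j, (ρ j).natDegree % p = j) (u : C × Fin M → K)
    (h : ∑ x, u x • (X ^ (p * (x.2 : ℕ)) * ρ x.1) = 0) : u = 0 := by
  refine eq_zero_of_sum_smul (fun x : C × Fin M => X ^ (p * (x.2 : ℕ)) * ρ x.1) ?_ ?_ u h
  · intro x
    exact mul_ne_zero (pow_ne_zero _ X_ne_zero) (h0 _)
  · intro x y hxy
    simp only [natDegree_mul (pow_ne_zero _ X_ne_zero) (h0 _), natDegree_X_pow] at hxy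
    have h1 : (x.1 : ℕ) = y.1 := by
      rw [← hdeg x.1, ← hdeg y.1]
      have h2 := congrArg (fun d => d % p) hxy
      simpa [Nat.mul_add_mod] using h2
    have h2 : x.1 = y.1 := Subtype.ext h1
    rw [h2] at hxy
    have h3 : p * (x.2 : ℕ) = p * (y.2 : ℕ) := by omega
    have h4 : (x.2 : ℕ) = y.2 := Nat.eq_of_mul_eq_mul_left hp h3
    exact Prod.ext h2 (Fin.ext h4)

/-- Rank-nullity over `K[X ^ p]`. -/
theorem card_cls_le {p : ℕ} (hp : 0 < p) (L : K[X] →ₗ[K] K[X])
    (hL : ∀ j g, L (X ^ (p * j) * g) = X ^ (p * j) * L g) :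
    (cls p (satr p L)).card + (cls p (LinearMap.ker L : Set K[X])).card ≤ p := by
  classical
  have h1 : ∀ j : cls p (satr p L), ∃ σ : K[X], L σ ≠ 0 ∧ (L σ).natDegree % p = j := by
    intro j
    obtain ⟨hj, g, ⟨e, F, hF⟩, hg0, hgj⟩ := mem_cls.mp j.2
    refine ⟨F, ?_, ?_⟩
    · rw [hF]
      exact mul_ne_zero (pow_ne_zero _ X_ne_zero) hg0
    · rw [hF, natDegree_mul (pow_ne_zero _ X_ne_zero) hg0, natDegree_X_pow, Nat.mul_add_mod, hgj]
  choose σ hσ0 hσ using h1
  have h2 : ∀ j : cls p (LinearMap.ker L : Set K[X]), ∃ κ : K[X], L κ = 0 ∧ κ ≠ 0 ∧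
      κ.natDegree % p = j := by
    intro j
    obtain ⟨hj, g, hg, hg0, hgj⟩ := mem_cls.mp j.2
    exact ⟨g, LinearMap.mem_ker.mp hg, hg0, hgj⟩
  choose κ hκL hκ0 hκ using h2
  set r := (cls p (satr p L)).card with hr
  set s := (cls p (LinearMap.ker L : Set K[X])).card with hs
  set c : ℕ := ∑ j, (σ j).natDegree + ∑ j, (κ j).natDegree + 1 with hc
  set M : ℕ := c + 1 with hM
  let ι1 := cls p (satr p L) × Fin M
  let ι2 := cls p (LinearMap.ker L : Set K[X]) × Fin M
  let A : (ι1 → K) →ₗ[K] K[X] := Fintype.linearCombination K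
    (fun x : ι1 => X ^ (p * (x.2 : ℕ)) * σ x.1)
  let B : (ι2 → K) →ₗ[K] K[X] := Fintype.linearCombination K
    (fun x : ι2 => X ^ (p * (x.2 : ℕ)) * κ x.1)
  let T : K[X] →ₗ[K] (Fin (p * M + c) → K) := LinearMap.pi fun m => lcoeff K m
  let Ψ : ((ι1 → K) × (ι2 → K)) →ₗ[K] (Fin (p * M + c) → K) :=
    T ∘ₗ (A.coprod B)
  have hA : ∀ u, A u = ∑ x, u x • (X ^ (p * (x.2 : ℕ)) * σ x.1) := fun u =>
    Fintype.linearCombination_apply _ _ _
  have hB : ∀ w, B w = ∑ x, w x • (X ^ (p * (x.2 : ℕ)) * κ x.1) := fun w =>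
    Fintype.linearCombination_apply _ _ _
  have hdegX : ∀ (i : Fin M) (g : K[X]), g.natDegree < c →
      (X ^ (p * (i : ℕ)) * g) ∈ degreeLT K (p * M + c) := by
    intro i g hg
    rw [mem_degreeLT]
    rcases eq_or_ne g 0 with h0 | h0
    · rw [h0, mul_zero, degree_zero]
      exact WithBot.bot_lt_coe _
    · rw [← natDegree_lt_iff_degree_lt (mul_ne_zero (pow_ne_zero _ X_ne_zero) h0),
        natDegree_mul (pow_ne_zero _ X_ne_zero) h0, natDegree_X_pow]
      have h1 : p * (i : ℕ) ≤ p * M := Nat.mul_le_mul_left _ i.2.le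
      omega
  have hσc : ∀ j, (σ j).natDegree < c := by
    intro j
    have h1 : (σ j).natDegree ≤ ∑ j, (σ j).natDegree :=
      single_le_sum (f := fun j => (σ j).natDegree) (fun _ _ => Nat.zero_le _) (mem_univ j)
    omega
  have hκc : ∀ j, (κ j).natDegree < c := by
    intro j
    have h1 : (κ j).natDegree ≤ ∑ j, (κ j).natDegree :=
      single_le_sum (f := fun j => (κ j).natDegree) (fun _ _ => Nat.zero_le _) (mem_univ j)
    omega
  have hinj : Function.Injective Ψ := by
    rw [← LinearMap.ker_eq_bot, LinearMap.ker_eq_bot']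
    rintro ⟨u, w⟩ huw
    have h3 : A u + B w = 0 := by
      have hdeg : A u + B w ∈ degreeLT K (p * M + c) := by
        refine Submodule.add_mem _ ?_ ?_
        · rw [hA]
          exact Submodule.sum_mem _ fun x _ => Submodule.smul_mem _ _ (hdegX _ _ (hσc _))
        · rw [hB]
          exact Submodule.sum_mem _ fun x _ => Submodule.smul_mem _ _ (hdegX _ _ (hκc _))
      rw [mem_degreeLT, degree_lt_iff_coeff_zero] at hdeg
      ext m
      rw [coeff_zero]
      by_cases hm : m < p * M + c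
      · have h4 := congrFun huw ⟨m, hm⟩
        exact h4
      · exact hdeg m (by omega)
    have h4 : L (B w) = 0 := by
      rw [hB, map_sum]
      refine sum_eq_zero fun x _ => ?_
      rw [map_smul, hL, hκL, mul_zero, smul_zero]
    have h5 : L (A u) = 0 := by
      have := congrArg L h3
      rwa [map_add, h4, add_zero, map_zero] at this
    have hu : u = 0 := by
      apply indep_of_cls hp (fun j => L (σ j)) hσ0 hσ u
      rw [← h5, hA, map_sum]
      refine sum_congr rfl fun x _ => ?_
      rw [map_smul, hL]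
    have hw : w = 0 := by
      apply indep_of_cls hp κ hκ0 hκ w
      rw [← hB]
      rw [hu, map_zero, zero_add] at h3
      exact h3
    rw [hu, hw]
    rfl
  have hfin := LinearMap.finrank_le_finrank_of_injective hinj
  rw [Module.finrank_prod, Module.finrank_fintype_fun_eq_card, Module.finrank_fintype_fun_eq_card,
    Module.finrank_fin_fun, Fintype.card_prod, Fintype.card_prod, Fintype.card_coe,
    Fintype.card_coe, Fintype.card_fin, ← hr, ← hs] at hfin
  by_contra hlt
  have h6 : p + 1 ≤ r + s := by omega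
  have h7 : (p + 1) * M ≤ (r + s) * M := Nat.mul_le_mul_right _ h6
  have h8 : (p + 1) * M = p * M + M := by ring
  have h9 : (r + s) * M = r * M + s * M := by ring
  omega

lemma derivative_X_pow_p (p : ℕ) [CharP K p] (j : ℕ) :
    derivative ((X : K[X]) ^ (p * j)) = 0 := by
  rw [derivative_X_pow]
  have : ((p * j : ℕ) : K) = 0 := by rw [Nat.cast_mul, CharP.cast_eq_zero, zero_mul]
  rw [this, C_0, zero_mul]

lemma card_filter_mod_le' (p : ℕ) (C : Finset ℕ) (M δ : ℕ) :
    ((range (p * M + δ)).filter fun d => d % p ∈ C).card ≤ C.card * M + δ := by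
  have h1 : (range (p * M + δ)).filter (fun d => d % p ∈ C) ⊆
      (range (p * M)).filter (fun d => d % p ∈ C) ∪ Ico (p * M) (p * M + δ) := by
    intro d hd
    rw [mem_filter, mem_range] at hd
    rw [mem_union, mem_filter, mem_range, mem_Ico]
    by_cases h2 : d < p * M
    · exact Or.inl ⟨h2, hd.2⟩
    · exact Or.inr ⟨by omega, hd.1⟩
  calc _ ≤ _ := card_le_card h1
    _ ≤ _ := card_union_le _ _
    _ ≤ C.card * M + δ := by
        rw [Nat.card_Ico]
        have := card_filter_mod_le p C M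
        omega

/-- **Norm lemma, strong form.** If `Lop F` is divisible by a high power of `X ^ p`, then `F` is,
up to a unit in `X ^ p`, congruent to a polynomial solution. -/
theorem exists_kernel_congr (p : ℕ) [Fact p.Prime] [CharP K p] (n : ℕ) (a : ℕ → K[X]) {δ : ℕ}
    (ha : ∀ i ≤ n, (a i).natDegree ≤ i + δ) (F : K[X]) (m : ℕ)
    (hdvd : X ^ (p * (δ + m)) ∣ Lop n a F) :
    ∃ u G : K[X], u.natDegree ≤ δ ∧ u.coeff 0 = 1 ∧ Lop n a G = 0 ∧
      X ^ (p * m) ∣ expand K p u * F - G := by
  classical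
  have hp : p.Prime := Fact.out
  obtain ⟨h, hh⟩ := hdvd
  have hdX := derivative_X_pow_p (K := K) p
  set K0 : ℕ := δ + h.natDegree + 1 with hK0
  have hpK0 : p * δ + h.natDegree < p * K0 := by
    rw [hK0, mul_add, mul_add]
    have : h.natDegree ≤ p * h.natDegree := Nat.le_mul_of_pos_left _ hp.pos
    have := hp.pos
    omega
  set k : ℕ := p * K0 with hk
  let P : (Fin k → K) →ₗ[K] K[X] :=
    (degreeLT K k).subtype ∘ₗ (degreeLTEquiv K k).symm.toLinearMap
  let S : (Fin (δ + 1) → K) →ₗ[K] K[X] :=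
    Fintype.linearCombination K (fun j : Fin (δ + 1) => X ^ (p * (j : ℕ)) * h)
  let Φ : ((Fin k → K) × (Fin (δ + 1) → K)) →ₗ[K] K[X] :=
    (Lop n a) ∘ₗ P ∘ₗ LinearMap.fst K _ _ - S ∘ₗ LinearMap.snd K _ _
  have hΦ : ∀ v c, Φ (v, c) = Lop n a (P v) - S c := fun v c => rfl
  have hS : ∀ c, S c = ∑ j : Fin (δ + 1), c j • (X ^ (p * (j : ℕ)) * h) := fun c =>
    Fintype.linearCombination_apply _ _ _
  have hPdeg : ∀ v, (P v).degree < k := by
    intro v
    have := ((degreeLTEquiv K k).symm v).2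
    rw [mem_degreeLT] at this
    exact this
  have hPinj : ∀ v, P v = 0 → v = 0 := by
    intro v h0
    have h1 : (degreeLTEquiv K k).symm v = 0 := Subtype.ext h0
    simpa using h1
  -- there is an element of the kernel with nonzero second component
  have hmain : ∃ v c, Φ (v, c) = 0 ∧ c ≠ 0 := by
    by_contra hall
    push Not at hall
    have hL : ∀ j g, Lop n a (X ^ (p * j) * g) = X ^ (p * j) * Lop n a g :=
      fun j g => Lop_mul n a (hdX j) g
    have hrk := card_cls_le hp.pos (Lop n a) hL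
    have h1 : Module.finrank K (LinearMap.range Φ) ≤
        (cls p (satr p (Lop n a))).card * K0 + δ := by
      refine (finrank_le_card _ _ ?_).trans (card_filter_mod_le' p _ K0 δ)
      rintro g ⟨⟨v, c⟩, rfl⟩ hg0
      rw [mem_filter, mem_range]
      refine ⟨?_, ?_⟩
      · rw [natDegree_lt_iff_degree_lt hg0, hΦ]
        refine lt_of_le_of_lt (degree_sub_le _ _) (max_lt (degree_Lop_lt n a ha (hPdeg v)) ?_)
        rw [← mem_degreeLT, hS]
        refine Submodule.sum_mem _ fun j _ => Submodule.smul_mem _ _ ?_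
        rw [mem_degreeLT]
        by_cases hh0 : h = 0
        · rw [hh0, mul_zero, degree_zero]
          exact WithBot.bot_lt_coe _
        · rw [← natDegree_lt_iff_degree_lt (mul_ne_zero (pow_ne_zero _ X_ne_zero) hh0),
            natDegree_mul (pow_ne_zero _ X_ne_zero) hh0, natDegree_X_pow]
          have h1 : p * (j : ℕ) ≤ p * δ := Nat.mul_le_mul_left _ (by have := j.2; omega)
          omega
      · refine mod_mem_cls hp.pos ?_ hg0
        refine ⟨δ + m, X ^ (p * (δ + m)) * P v - ∑ j : Fin (δ + 1), c j • (X ^ (p * (j : ℕ)) * F),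
          ?_⟩
        rw [map_sub, hL, map_sum, hΦ, hS, mul_sub, mul_sum]
        congr 1
        refine sum_congr rfl fun j _ => ?_
        rw [map_smul, hL, hh, mul_smul_comm]
        congr 1
        ring
    have h2 : Module.finrank K (LinearMap.ker Φ) ≤
        (cls p (LinearMap.ker (Lop n a) : Set K[X])).card * K0 := by
      let Q : LinearMap.ker Φ →ₗ[K] K[X] := P ∘ₗ LinearMap.fst K _ _ ∘ₗ (LinearMap.ker Φ).subtype
      have hQ : Function.Injective Q := by
        rw [← LinearMap.ker_eq_bot, LinearMap.ker_eq_bot']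
        rintro ⟨⟨v, c⟩, hvc⟩ h0
        have h3 : v = 0 := hPinj v h0
        have h4 : c = 0 := hall v c hvc
        exact Subtype.ext (Prod.ext h3 h4)
      rw [← LinearMap.finrank_range_of_inj hQ]
      refine (finrank_le_card _ _ ?_).trans (card_filter_mod_le p _ K0)
      rintro g ⟨⟨⟨v, c⟩, hvc⟩, rfl⟩ hg0
      have h4 : c = 0 := hall v c hvc
      have h5 : Lop n a (P v) = 0 := by
        have h6 : Lop n a (P v) - S c = 0 := hvc
        rwa [h4, map_zero, sub_zero] at h6
      rw [mem_filter, mem_range]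
      exact ⟨(natDegree_lt_iff_degree_lt hg0).mpr (hPdeg v), mod_mem_cls hp.pos h5 hg0⟩
    have h3 := LinearMap.finrank_range_add_finrank_ker Φ
    rw [Module.finrank_prod, Module.finrank_fin_fun, Module.finrank_fin_fun] at h3
    have h4 : ((cls p (satr p (Lop n a))).card +
        (cls p (LinearMap.ker (Lop n a) : Set K[X])).card) * K0 ≤ p * K0 :=
      Nat.mul_le_mul_right _ hrk
    rw [add_mul] at h4
    omega
  obtain ⟨v, c, hvc, hc⟩ := hmain
  rw [hΦ, sub_eq_zero, hS] at hvc
  -- the first nonzero coefficient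
  have hex : ∃ j : ℕ, ∃ hj : j < δ + 1, c ⟨j, hj⟩ ≠ 0 := by
    by_contra hall
    push Not at hall
    exact hc (funext fun j => hall j j.2)
  obtain ⟨j0, ⟨hj0δ, hcj0⟩, hmin'⟩ : ∃ j0 : ℕ, (∃ hj : j0 < δ + 1, c ⟨j0, hj⟩ ≠ 0) ∧
      ∀ j < j0, ¬ ∃ hj : j < δ + 1, c ⟨j, hj⟩ ≠ 0 :=
    ⟨Nat.find hex, Nat.find_spec hex, fun j hj => Nat.find_min hex hj⟩
  have hmin : ∀ j : Fin (δ + 1), (j : ℕ) < j0 → c j = 0 := by
    intro j hj
    have := hmin' j hj
    push Not at this
    exact this j.2
  set c0 := c ⟨j0, hj0δ⟩ with hc0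
  set u : K[X] := ∑ j : Fin (δ + 1), (c j / c0) • X ^ ((j : ℕ) - j0) with hu
  have hexpu : expand K p u = ∑ j : Fin (δ + 1), (c j / c0) • X ^ (p * ((j : ℕ) - j0)) := by
    rw [hu, map_sum]
    refine sum_congr rfl fun j _ => ?_
    rw [map_smul, map_pow, expand_X, ← pow_mul]
  have hdu : derivative (expand K p u) = 0 := by
    rw [hexpu, derivative_sum]
    refine sum_eq_zero fun j _ => ?_
    rw [derivative_smul, hdX, smul_zero]
  have hLu : Lop n a (P v) = c0 • (X ^ (p * j0) * expand K p u * h) := by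
    rw [hvc, hexpu, mul_sum, sum_mul, smul_sum]
    refine sum_congr rfl fun j _ => ?_
    by_cases hj : (j : ℕ) < j0
    · rw [hmin j hj]
      simp
    · rw [mul_smul_comm, smul_mul_assoc, ← pow_add, ← mul_add, smul_smul,
        mul_div_cancel₀ _ hcj0]
      congr 3
      congr 1
      omega
  have hexp : p * (δ + m) = p * j0 + p * (δ + m - j0) := by
    rw [← mul_add]
    congr 1
    omega
  refine ⟨u, expand K p u * F - X ^ (p * (δ + m - j0)) * (c0⁻¹ • P v), ?_, ?_, ?_, ?_⟩
  · rw [hu]
    refine natDegree_sum_le_of_forall_le _ _ fun j _ => ?_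
    refine (natDegree_smul_le _ _).trans ?_
    rw [natDegree_X_pow]
    have := j.2
    omega
  · rw [hu, finsetSum_coeff, sum_eq_single ⟨j0, hj0δ⟩]
    · rw [coeff_smul, coeff_X_pow, if_pos (by simp), smul_eq_mul, mul_one]
      exact div_self hcj0
    · intro j _ hj
      rw [coeff_smul, coeff_X_pow]
      by_cases hj' : (j : ℕ) < j0
      · rw [hmin j hj', zero_div, zero_smul]
      · rw [if_neg, smul_zero]
        have h1 : (j : ℕ) ≠ j0 := fun h => hj (Fin.ext h)
        omega
    · intro h1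
      exact absurd (mem_univ _) h1
  · rw [map_sub, Lop_mul n a hdu, Lop_mul n a (hdX _), hh, map_smul, hLu, smul_smul,
      inv_mul_cancel₀ hcj0, one_smul, hexp, pow_add]
    ring
  · refine ⟨X ^ (p * (δ + m - j0) - p * m) * (c0⁻¹ • P v), ?_⟩
    have h1 : p * m ≤ p * (δ + m - j0) := Nat.mul_le_mul_left _ (by omega)
    rw [← mul_assoc, ← pow_add]
    have h2 : p * m + (p * (δ + m - j0) - p * m) = p * (δ + m - j0) := by omega
    rw [h2]
    ring

end Pool.Agent.W_b91de3_h49
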