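import Mathlib
import Pool.Prelude.Def_F_fc9cdd2f
import Pool.Agent.W_b91de3_h49.LinRank

set_option autoImplicit false

/-! # Reduction of a linear differential equation modulo `p` -/

noncomputable section

open Polynomial Finset N27ec9e13

namespace Pool.Agent.W_b91de3_h49

section Rp

variable (p : ℕ) [Fact p.Prime]

/-- the `p`-integral rational numbers -/
def Rp : Subring ℚ := (PadicInt.subring p).comap (Rat.castHom ℚ_[p])

/-- the reduction -/
def redp : Rp p →+* ZMod p :=
  (PadicInt.toZMod (p := p)).comp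
    (((Rat.castHom ℚ_[p]).comp (Rp p).subtype).codRestrict (PadicInt.subring p) fun x => x.2)

variable {p}

lemma mem_Rp {x : ℚ} (hx : ¬ p ∣ x.den) : x ∈ Rp p := by
  rw [Rp, Subring.mem_comap, PadicInt.mem_subring_iff]
  exact Padic.norm_rat_le_one hx

lemma dvd_num_of_redp {x : Rp p} (hx : redp p x = 0) : (p : ℤ) ∣ (x : ℚ).num := by
  have h1 : x * ((x : ℚ).den : Rp p) = ((x : ℚ).num : Rp p) := by
    apply Subtype.ext
    push_cast
    exact Rat.mul_den_eq_num _
  have h2 := congrArg (redp p) h1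
  rw [map_mul, hx, zero_mul, map_intCast] at h2
  rwa [eq_comm, ZMod.intCast_zmod_eq_zero_iff_dvd] at h2

lemma exists_lift (A : ℚ[X]) (hA : ∀ k, A.coeff k ∈ Rp p) :
    ∃ B : (Rp p)[X], B.map (Rp p).subtype = A := by
  have h1 : A ∈ Polynomial.lifts (Rp p).subtype := by
    rw [Polynomial.lifts_iff_coeff_lifts]
    intro k
    exact ⟨⟨A.coeff k, hA k⟩, rfl⟩
  rw [Polynomial.mem_lifts] at h1
  exact h1

omit [Fact p.Prime] in
lemma not_dvd_den_of_lt {x : ℚ} (h : x.den < p) : ¬ p ∣ x.den := fun hd =>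
  absurd (Nat.le_of_dvd x.den_pos hd) (by omega)

end Rp

lemma eventually_mem_Rp (A : ℚ[X]) : ∃ P0 : ℕ, ∀ p, P0 ≤ p → ∀ [Fact p.Prime],
    ∀ k, A.coeff k ∈ Rp p := by
  refine ⟨∑ k ∈ A.support, (A.coeff k).den + 2, fun p hp _ k => ?_⟩
  by_cases hk : k ∈ A.support
  · apply mem_Rp
    apply not_dvd_den_of_lt
    have h1 : (A.coeff k).den ≤ ∑ k ∈ A.support, (A.coeff k).den :=
      single_le_sum (f := fun k => (A.coeff k).den) (fun _ _ => Nat.zero_le _) hk
    omega
  · rw [notMem_support_iff.mp hk]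
    exact Subring.zero_mem _

lemma Lop_map {R S : Type*} [CommRing R] [CommRing S] (φ : R →+* S) (n : ℕ) (a : ℕ → R[X])
    (g : R[X]) : (Lop n a g).map φ = Lop n (fun i => (a i).map φ) (g.map φ) := by
  rw [Lop_apply, Lop_apply, Polynomial.map_sum]
  refine sum_congr rfl fun i _ => ?_
  rw [Polynomial.map_mul, Polynomial.iterate_derivative_map]

lemma Lop_trunc (n : ℕ) (a : ℕ → ℚ[X]) (f : PowerSeries ℚ) (N m : ℕ) (hm : m + n < N) :
    (Lop n a (PowerSeries.trunc N f)).coeff m = PowerSeries.coeff m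
      (∑ i ∈ range (n + 1), (a i : PowerSeries ℚ) * (PowerSeries.derivative ℚ)^[i] f) := by
  rw [Lop_apply, finsetSum_coeff, map_sum]
  refine sum_congr rfl fun i hi => ?_
  rw [mem_range] at hi
  rw [Polynomial.coeff_mul, PowerSeries.coeff_mul]
  refine sum_congr rfl fun x hx => ?_
  rw [HasAntidiagonal.mem_antidiagonal] at hx
  rw [Polynomial.coeff_coe, Polynomial.coeff_iterate_derivative,
    PowerSeries.coeff_iterate_derivative, PowerSeries.coeff_trunc, if_pos (by omega),
    Nat.add_descFactorial_eq_ascFactorial, nsmul_eq_mul]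

/-- An `ω`-integral solution yields polynomial solutions modulo almost all primes. -/
theorem exists_solution_mod (n : ℕ) (a : ℕ → ℚ[X]) (f : PowerSeries ℚ) (hf0 : f ≠ 0)
    (hL : ∑ i ∈ range (n + 1), (a i : PowerSeries ℚ) * (PowerSeries.derivative ℚ)^[i] f = 0)
    (ω : Nat.Primes → ℤ) (hω : omegaSuperlinear ω)
    (hint : omegaIntegral ω (PowerSeries.coeff · f)) :
    ∃ P0 : ℕ, ∀ p, P0 ≤ p → ∀ [Fact p.Prime], ∀ b : ℕ → (Rp p)[X],
      (∀ i ≤ n, (b i).map (Rp p).subtype = a i) →
      ∃ G : (ZMod p)[X], G ≠ 0 ∧ Lop n (fun i => (b i).map (redp p)) G = 0 := by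
  -- the order of `f`
  obtain ⟨o, ho⟩ : ∃ o, PowerSeries.coeff o f ≠ 0 := by
    by_contra hall
    push Not at hall
    exact hf0 (PowerSeries.ext fun k => by rw [hall k, map_zero])
  set δ : ℕ := ∑ i ∈ range (n + 1), (a i).natDegree with hδ
  -- the integrality
  have h1 : ∀ᶠ p : Nat.Primes in Filter.comap (fun p : Nat.Primes => (p : ℕ)) Filter.atTop,
      ((δ + 2 : ℕ) : ℝ) ≤ (ω p : ℝ) / (p : ℝ) := hω.eventually_ge_atTop _
  rw [Filter.eventually_comap, Filter.eventually_atTop] at h1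
  obtain ⟨p1, hp1⟩ := h1
  refine ⟨max p1 (max (o + 1) (max (n + 1) ((PowerSeries.coeff o f).num.natAbs + 1))),
    fun p hp hfact b hb => ?_⟩
  have hpp : p.Prime := hfact.out
  have hp1' : p1 ≤ p := le_trans (le_max_left _ _) hp
  have hpo : o + 1 ≤ p := le_trans (le_trans (le_max_left _ _) (le_max_right _ _)) hp
  have hpn : n + 1 ≤ p :=
    le_trans (le_trans (le_trans (le_max_left _ _) (le_max_right _ _)) (le_max_right _ _)) hp
  have hpnum : (PowerSeries.coeff o f).num.natAbs + 1 ≤ p :=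
    le_trans (le_trans (le_trans (le_max_right _ _) (le_max_right _ _)) (le_max_right _ _)) hp
  have hint' : ∀ k, k < p * (δ + 2) → PowerSeries.coeff k f ∈ Rp p := by
    intro k hk
    apply mem_Rp
    have h2 := hp1 p hp1' ⟨p, hpp⟩ rfl
    have hp0 : (0 : ℝ) < p := by exact_mod_cast hpp.pos
    have h3 : (((δ + 2 : ℕ) : ℝ)) * p ≤ ω ⟨p, hpp⟩ := by
      rwa [le_div_iff₀ hp0] at h2
    have h4 : (((δ + 2) * p : ℕ) : ℤ) ≤ ω ⟨p, hpp⟩ := by
      have : ((((δ + 2) * p : ℕ) : ℤ) : ℝ) ≤ ω ⟨p, hpp⟩ := by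
        push_cast
        push_cast at h3
        exact h3
      exact_mod_cast this
    have h5 : (k : ℤ) ≤ ω ⟨p, hpp⟩ := by
      have : (k : ℤ) < ((p * (δ + 2) : ℕ) : ℤ) := by exact_mod_cast hk
      rw [mul_comm] at h4
      omega
    have h6 := hint ⟨p, hpp⟩ k h5
    intro hd
    have h7 : p ∣ 1 := by
      rw [← h6]
      exact Nat.dvd_gcd hd dvd_rfl
    exact hpp.one_lt.ne' (Nat.dvd_one.mp h7)
  obtain ⟨F, hF⟩ := exists_lift (p := p) (PowerSeries.trunc (p * (δ + 2)) f) (by
    intro k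
    rw [PowerSeries.coeff_trunc]
    split_ifs with hk
    · exact hint' k hk
    · exact Subring.zero_mem _)
  have hFc : ∀ k, ((F.coeff k : Rp p) : ℚ) = (PowerSeries.trunc (p * (δ + 2)) f).coeff k := by
    intro k
    rw [← hF, Polynomial.coeff_map]
    rfl
  have hpδ : p * (δ + 2) = p * (δ + 1) + p := by ring
  have hoN : o < p * (δ + 2) := by
    have : p ≤ p * (δ + 2) := Nat.le_mul_of_pos_right _ (by omega)
    omega
  have hinj : Function.Injective (Rp p).subtype := Subtype.coe_injective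
  -- the equation for the truncation
  have hdvd : X ^ (p * (δ + 1)) ∣ Lop n (fun i => (b i).map (redp p)) (F.map (redp p)) := by
    rw [Polynomial.X_pow_dvd_iff]
    intro m hm
    rw [← Lop_map, Polynomial.coeff_map]
    have h2 : (Lop n b F).coeff m = 0 := by
      apply hinj
      rw [map_zero, ← Polynomial.coeff_map, Lop_map, hF]
      have h3 : Lop n (fun i => (b i).map (Rp p).subtype) (PowerSeries.trunc (p * (δ + 2)) f) =
          Lop n a (PowerSeries.trunc (p * (δ + 2)) f) := by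
        rw [Lop_apply, Lop_apply]
        refine sum_congr rfl fun i hi => ?_
        rw [mem_range] at hi
        rw [hb i (by omega)]
      rw [h3, Lop_trunc n a f _ m (by omega), hL, map_zero]
    rw [h2, map_zero]
  have hcoeff : (F.map (redp p)).coeff o ≠ 0 := by
    rw [Polynomial.coeff_map]
    intro h0
    have h2 := dvd_num_of_redp h0
    rw [hFc, PowerSeries.coeff_trunc, if_pos hoN] at h2
    have h3 : p ∣ (PowerSeries.coeff o f).num.natAbs := Int.natCast_dvd.mp h2
    have h4 : (PowerSeries.coeff o f).num.natAbs ≠ 0 := by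
      rw [Int.natAbs_ne_zero]
      exact Rat.num_ne_zero.mpr ho
    exact absurd (Nat.le_of_dvd (Nat.pos_of_ne_zero h4) h3) (by omega)
  refine exists_kernel_of_dvd p n _ (δ := δ) ?_ (F.map (redp p)) (by omega) hcoeff hdvd
  intro i hi
  have h2 : ((b i).map (redp p)).natDegree ≤ (a i).natDegree := by
    refine Polynomial.natDegree_map_le.trans ?_
    rw [← hb i hi, Polynomial.natDegree_map_eq_of_injective hinj]
  have h3 : (a i).natDegree ≤ δ :=
    single_le_sum (f := fun i => (a i).natDegree) (fun _ _ => Nat.zero_le _)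
      (mem_range.mpr (by omega))
  omega

end Pool.Agent.W_b91de3_h49
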