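import Mathlib

set_option autoImplicit false

/-! # A weak form of Mertens' theorem: `∑_{p ≤ Y} log p / (p - 1) ≤ log Y + C`. -/

noncomputable section

open Finset Nat

namespace Pool.Agent.W_b91de3_h49

/-- the sum of the digits in base `p` -/
lemma digits_sum_le {p : ℕ} (hp : 1 < p) {Y : ℕ} (hY : Y ≠ 0) :
    (p.digits Y).sum ≤ (p - 1) * (Nat.log p Y + 1) := by
  have h1 := List.sum_le_card_nsmul (p.digits Y) (p - 1) (fun x hx => by
    have := Nat.digits_lt_base hp hx
    omega)
  rw [Nat.length_digits p Y hp hY, smul_eq_mul, mul_comm] at h1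
  exact h1

lemma mul_log_div_le {Y : ℕ} (hY : Y ≠ 0) {p : ℕ} (hp : p.Prime) :
    (Y : ℝ) * (Real.log p / (p - 1)) ≤
      (Y.factorial.factorization p) * Real.log p + (p.log Y + 1) * Real.log p := by
  have : Fact p.Prime := ⟨hp⟩
  have h1 := sub_one_mul_padicValNat_factorial (p := p) Y
  have h2 := digits_sum_le hp.one_lt hY
  have h3 : Y ≤ (p - 1) * (Y.factorial.factorization p) + (p - 1) * (p.log Y + 1) := by
    rw [Nat.factorization_def _ hp]
    omega
  have hp1 : (1 : ℝ) < p := by exact_mod_cast hp.one_lt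
  have h4 : (Y : ℝ) ≤ (p - 1) * (Y.factorial.factorization p) + (p - 1) * (p.log Y + 1) := by
    have := (Nat.cast_le (α := ℝ)).mpr h3
    push_cast [Nat.cast_sub hp.one_le] at this
    exact this
  have h5 : 0 ≤ Real.log p := Real.log_nonneg hp1.le
  have h6 : (0 : ℝ) < p - 1 := by linarith
  calc (Y : ℝ) * (Real.log p / (p - 1)) = Y * Real.log p / (p - 1) := by ring
    _ ≤ _ := by
        rw [div_le_iff₀ h6]
        calc (Y : ℝ) * Real.log p ≤
            ((p - 1) * (Y.factorial.factorization p) + (p - 1) * (p.log Y + 1)) *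
              Real.log p := by gcongr
          _ = _ := by ring

theorem mertens_upper {Y : ℕ} (hY : Y ≠ 0) :
    ∑ p ∈ primesLE Y, Real.log p / (p - 1) ≤ Real.log Y + (2 * Real.log 4 + 4) := by
  have hY' : (0 : ℝ) < Y := by exact_mod_cast Nat.pos_of_ne_zero hY
  have h1 : (Y : ℝ) * ∑ p ∈ primesLE Y, Real.log p / (p - 1) ≤
      Real.log Y.factorial + Chebyshev.psi Y + Chebyshev.theta Y := by
    rw [mul_sum]
    calc ∑ p ∈ primesLE Y, (Y : ℝ) * (Real.log p / (p - 1))
        ≤ ∑ p ∈ primesLE Y, ((Y.factorial.factorization p) * Real.log p +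
            (p.log Y + 1) * Real.log p) :=
          sum_le_sum fun p hp => mul_log_div_le hY (by simpa using (Nat.mem_primesLE.mp hp).2)
      _ = Real.log Y.factorial + Chebyshev.psi Y + Chebyshev.theta Y := by
          rw [Chebyshev.psi_eq_sum_mul_log_prime, Chebyshev.theta_eq_sum_primesLE_log,
            sum_add_distrib]
          simp only [add_mul, one_mul, sum_add_distrib]
          rw [← add_assoc]
          congr 2
          rw [Real.log_nat_eq_sum_factorization, Finsupp.sum]
          symm
          apply sum_subset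
          · intro p hp
            rw [Nat.support_factorization, Nat.mem_primeFactors] at hp
            rw [Nat.mem_primesLE]
            exact ⟨(Nat.Prime.dvd_factorial hp.1).mp hp.2.1, hp.1⟩
          · intro p hp hp'
            rw [Finsupp.notMem_support_iff] at hp'
            rw [hp', Nat.cast_zero, zero_mul]
  have h2 : Real.log Y.factorial ≤ Y * Real.log Y := by
    rw [← Real.log_pow]
    refine Real.log_le_log (by exact_mod_cast Nat.factorial_pos Y) ?_
    exact_mod_cast Nat.factorial_le_pow Y
  have h3 := Chebyshev.psi_le_const_mul_self (x := Y) hY'.le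
  have h4 := Chebyshev.theta_le_log4_mul_x (x := Y) hY'.le
  have h5 : (Y : ℝ) * ∑ p ∈ primesLE Y, Real.log p / (p - 1) ≤
      Y * (Real.log Y + (2 * Real.log 4 + 4)) := by nlinarith
  exact le_of_mul_le_mul_left h5 hY'

end Pool.Agent.W_b91de3_h49
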